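import Pool.Agent.Q322.CD.Stmts

namespace Pool.Agent.Q322.CD

open Pool.Agent.NPC Pool.Agent.H633R2 Pool.Agent.Q322

private theorem mem_allLb2 (R a b c d : ℕ) : ((a, b, c, d) : Lb) ∈ allLb R ↔
    a < R ∧ b < R ∧ c < R ∧ d < R := by
  simp [allLb, List.mem_product]

private theorem len_le2 (M : List (List Bool)) (c : ℕ) : len M c ≤ NN M * NN M := by
  unfold len
  have h : 1 ≤ NN M := by unfold NN; omega
  split_ifs
  · exact le_rfl
  · exact Nat.mul_le_mul_right _ (Nat.sub_le _ _)
  · calc NN M - 1 ≤ NN M * 1 := by omega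
      _ ≤ NN M * NN M := Nat.mul_le_mul_left _ h

private theorem vx_mem2 {M : List (List Bool)} {k c i j z : ℕ} (h : CIJ k c i j)
    (hz : z ≤ len M c + 1) : vx M k c i j z ∈ allLb (hh M k + k + 8) := by
  obtain ⟨h1, h2, h3, h4⟩ := h
  have h5 := len_le2 M c
  have h6 : (j + 1) % k < k := Nat.mod_lt _ (by omega)
  have h7 : (i + 1) % k < k := Nat.mod_lt _ (by omega)
  have h8 : hh M k = 1 + 2 * (NN M * NN M) + 3 * (k * k) := rfl
  generalize NN M * NN M = A at *
  generalize k * k = B at *
  unfold vx src tgt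
  split_ifs <;> rw [mem_allLb2] <;> refine ⟨?_, ?_, ?_, ?_⟩ <;> omega

theorem taskAll2 : TaskAll := by
  intro hprv hadj
  refine ⟨fun R => ?_, fun M k x y h => ?_⟩
  · unfold allLb
    exact List.nodup_range.product (List.nodup_range.product (List.nodup_range.product
      List.nodup_range))
  · rcases (hadj hprv M k x y).1 h with ⟨d, i, j, z, hd, hi, hj, hz, he⟩ | ⟨c, i, j, z, hc, hz, he⟩
    · have h1 : x = (d, i, j, 0) ∨ x = (d, i, j, z + 1) := by
        rw [Sym2.eq_iff] at he
        rcases he with ⟨h, -⟩ | ⟨h, -⟩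
        · exact Or.inl h
        · exact Or.inr h
      unfold bas at hz
      rcases h1 with rfl | rfl
      · rw [mem_allLb2]; unfold hh; omega
      · rw [mem_allLb2]; unfold hh; omega
    · have hp := (hprv M c i j z (by omega)).1
      unfold ed at he
      rw [Sym2.eq_iff] at he
      rcases he with ⟨h, -⟩ | ⟨h, -⟩
      · rw [h]; exact vx_mem2 hc (by omega)
      · rw [h]; exact vx_mem2 hc (by omega)

end Pool.Agent.Q322.CD
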