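import Pool.Agent.H633R2.FptDefs

/-!
# Edge deletion to small components
-/

namespace Pool.Agent.Q322.CD

open Pool.Agent.NPC Pool.Agent.H633R2

/-- `T_{h+1}`-Free Edge Deletion: instances `(M, k, h)` with positive `k` and `h`; can at most `k` edges of
the graph of the matrix `M` be deleted such that every connected component of the remaining graph has at
most `h` vertices? -/
def EdgeDel (x : List (List Bool) × ℕ × ℕ) : Prop :=
  0 < x.2.1 ∧ 0 < x.2.2 ∧ ∃ F : Finset (Sym2 (Fin x.1.length)),
    (F : Set (Sym2 (Fin x.1.length))) ⊆ (graphOf x.1).edgeSet ∧ F.card ≤ x.2.1 ∧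
      ∀ c : ((graphOf x.1).deleteEdges (F : Set (Sym2 (Fin x.1.length)))).ConnectedComponent,
        c.supp.ncard ≤ x.2.2

end Pool.Agent.Q322.CD
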