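import Pool.Agent.Q322.CD.Stmts

set_option autoImplicit false

/-! MP_613513_lc, blueprint of helper322: TaskReach and TaskAll (helper190, backup). -/

namespace Pool.Agent.Q322.CD.Extra190

open Pool.Agent.Q322.CD Pool.Agent.NPC Pool.Agent.H633R2 Pool.Agent.Q322

theorem taskReach : TaskReach := by
  intro hP hL hA M k c i j F m m' hc hm hm' hF z
  induction z using Nat.strong_induction_on with
  | _ z ih =>
    intro h1 h2
    rcases Nat.eq_or_lt_of_le h1 with rfl | h3
    · exact SimpleGraph.Reachable.refl _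
    · obtain ⟨y, rfl⟩ : ∃ y, z = y + 1 := ⟨z - 1, by omega⟩
      obtain ⟨q1, q2, q3⟩ := hP M c i j y (by omega)
      have h4 : m ≤ prv M c i j (y + 1) := q3 m (by omega) hm
      have h5 := ih (prv M c i j (y + 1)) (by omega) h4 (by omega)
      refine h5.trans (SimpleGraph.Adj.reachable ?_)
      rw [SimpleGraph.deleteEdges_adj]
      refine ⟨(hA hP M k _ _).2 (Or.inr ⟨c, i, j, y, hc, by omega, rfl⟩), ?_⟩
      exact hF y (by omega) (by omega)

lemma len_le (M : List (List Bool)) (c : ℕ) : len M c ≤ NN M * NN M := by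
  have h : 2 ≤ NN M := by unfold NN; omega
  unfold len
  split_ifs
  · exact le_rfl
  · exact Nat.mul_le_mul_right _ (Nat.sub_le _ _)
  · nlinarith [Nat.sub_le (NN M) 1]

lemma mem_all {R a b c d : ℕ} (ha : a < R) (hb : b < R) (hc : c < R) (hd : d < R) :
    ((a, b, c, d) : Lb) ∈ allLb R := by
  unfold allLb
  simp only [List.mem_product, List.mem_range]
  exact ⟨ha, hb, hc, hd⟩

lemma vx_mem (M : List (List Bool)) (k c i j z : ℕ) (hc : CIJ k c i j) (hz : z ≤ len M c + 1) :
    vx M k c i j z ∈ allLb (hh M k + k + 8) := by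
  obtain ⟨h2, h4, hi, hj⟩ := hc
  have hl := len_le M c
  have hk : 0 < k := by omega
  have hi' : (i + 1) % k < k := Nat.mod_lt _ hk
  have hj' : (j + 1) % k < k := Nat.mod_lt _ hk
  have hhh : hh M k = 1 + 2 * (NN M * NN M) + 3 * (k * k) := rfl
  unfold vx src tgt
  split_ifs <;> refine mem_all ?_ ?_ ?_ ?_ <;> omega

theorem taskAll : TaskAll := by
  intro hP hA
  refine ⟨fun R => ?_, fun M k x y hxy => ?_⟩
  · exact (List.nodup_range).product ((List.nodup_range).product ((List.nodup_range).product List.nodup_range))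
  · rcases (hA hP M k x y).1 hxy with ⟨d, i, j, z, hd, hi, hj, hz, he⟩ | ⟨c, i, j, z, hc, hz, he⟩
    · have hb : bas M k d = NN M * NN M + 3 * (k * k) + (1 - d) := rfl
      have hhh : hh M k = 1 + 2 * (NN M * NN M) + 3 * (k * k) := rfl
      have hx : x = (d, i, j, 0) ∨ x = (d, i, j, z + 1) := by
        rcases Sym2.eq_iff.1 he with ⟨h, -⟩ | ⟨h, -⟩
        · exact Or.inl h
        · exact Or.inr h
      rcases hx with rfl | rfl
      · refine mem_all ?_ ?_ ?_ ?_ <;> omega
      · refine mem_all ?_ ?_ ?_ ?_ <;> omega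
    · have hp := (hP M c i j z (by omega)).1
      rcases Sym2.eq_iff.1 he with ⟨h, -⟩ | ⟨h, -⟩
      · rw [h]; exact vx_mem M k c i j _ hc (by omega)
      · rw [h]; exact vx_mem M k c i j _ hc (by omega)

end Pool.Agent.Q322.CD.Extra190
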