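import Pool.Agent.Q322.CD.Stmts

namespace Pool.Agent.Q322.CD

open Pool.Agent.NPC Pool.Agent.H633R2 Pool.Agent.Q322

namespace InjAux

theorem src_kind (c i j : ℕ) : (src c i j).1 ≤ 1 ∧ (src c i j).2.2.2 = 0 := by
  unfold src; split_ifs <;> simp

theorem tgt_kind (k c i j : ℕ) : (tgt k c i j).1 ≤ 1 ∧ (tgt k c i j).2.2.2 = 0 := by
  unfold tgt; split_ifs <;> simp

theorem src_ne_tgt (k c i j i' j' : ℕ) : src c i j ≠ tgt k c i' j' := by
  unfold src tgt; split_ifs <;> simp

/-- a vertex of a path is a center or a vertex of its own -/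
theorem vx_cases (M : List (List Bool)) (k c i j z : ℕ) (hz : z ≤ len M c + 1) :
    (z = 0 ∧ vx M k c i j z = src c i j) ∨ (z = len M c + 1 ∧ vx M k c i j z = tgt k c i j) ∨
      (1 ≤ z ∧ z ≤ len M c ∧ vx M k c i j z = (c, i, j, z)) := by
  unfold vx
  by_cases h0 : z = 0
  · left; simp [h0]
  · by_cases h1 : z = len M c + 1
    · right; left; simp [h1]
    · right; right
      refine ⟨by omega, by omega, by simp [h0, h1]⟩

/-- if the last edge of a path joins the centers, the kind is 2 -/
theorem kind_two (hP : TaskPrv) (hL : TaskLen) (M : List (List Bool)) (k c i j : ℕ) (h : CIJ k c i j)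
    (hp : prv M c i j (len M c + 1) = 0) : c = 2 := by
  obtain ⟨h2, h4, -, -⟩ := h
  by_contra hc
  have hlen := (hL M c i j h2 h4).2.2
  have hP1 := (hP M c i j (len M c) (by omega)).2.2 1 hlen
  have hhd : hd M c i j 1 = true := by
    unfold hd alw
    have hc34 : c = 3 ∨ c = 4 := by omega
    rcases hc34 with rfl | rfl
    · simp [NN]
    · simp [NN]
  have := hP1 hhd
  omega

theorem main (hP : TaskPrv) (hL : TaskLen) (M : List (List Bool)) (k c i j z c' i' j' z' : ℕ)
    (h : CIJ k c i j) (h' : CIJ k c' i' j') (hz : z ≤ len M c) (hz' : z' ≤ len M c')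
    (he : ed M k c i j z = ed M k c' i' j' z') : c = c' ∧ i = i' ∧ j = j' ∧ z = z' := by
  have hp := (hP M c i j z (by omega)).1
  have hp' := (hP M c' i' j' z' (by omega)).1
  have hk := kind_two hP hL M k c i j h
  have hk' := kind_two hP hL M k c' i' j' h'
  obtain ⟨h2, h4, -, -⟩ := h
  obtain ⟨h2', h4', -, -⟩ := h'
  unfold ed at he
  generalize hpe : prv M c i j (z + 1) = p at he hp
  generalize hpe' : prv M c' i' j' (z' + 1) = p' at he hp'
  have s1 := src_kind c i j
  have s2 := src_kind c' i' j'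
  have t1 := tgt_kind k c i j
  have t2 := tgt_kind k c' i' j'
  have n1 := src_ne_tgt k c i j i j
  have n2 := src_ne_tgt k c' i' j' i' j'
  have A := vx_cases M k c i j p (by omega)
  have A' := vx_cases M k c' i' j' p' (by omega)
  have B := vx_cases M k c i j (z + 1) (by omega)
  have B' := vx_cases M k c' i' j' (z' + 1) (by omega)
  rw [Sym2.eq_iff] at he
  rcases A with ⟨a1, a2⟩ | ⟨a1, a2⟩ | ⟨a1, a2, a3⟩
  · rcases A' with ⟨b1, b2⟩ | ⟨b1, b2⟩ | ⟨b1, b2, b3⟩
    · -- p = 0, p' = 0
      rcases B with ⟨c1, c2⟩ | ⟨c1, c2⟩ | ⟨c1, c2, c3⟩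
      · omega
      · have hz1 : z = len M c := by omega
        have hc2 : c = 2 := hk (by rw [← hz1, hpe, a1])
        rcases B' with ⟨d1, d2⟩ | ⟨d1, d2⟩ | ⟨d1, d2, d3⟩
        · omega
        · have hz1' : z' = len M c' := by omega
          have hc2' : c' = 2 := hk' (by rw [← hz1', hpe', b1])
          rw [a2, b2, c2, d2] at he
          subst hc2 hc2'
          simp [src, tgt] at he
          obtain ⟨e1, e2⟩ := he
          exact ⟨rfl, e1, e2, by omega⟩
        · rw [a2, b2, c2, d3] at he
          rcases he with ⟨e1, e2⟩ | ⟨e1, e2⟩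
          · rw [e2] at t1
            simp at t1
          · rw [e1] at s1
            simp at s1
      · rcases B' with ⟨d1, d2⟩ | ⟨d1, d2⟩ | ⟨d1, d2, d3⟩
        · omega
        · rw [a2, b2, c3, d2] at he
          rcases he with ⟨e1, e2⟩ | ⟨e1, e2⟩
          · rw [← e2] at t2
            simp at t2
          · rw [← e2] at s2
            simp at s2
        · rw [a2, b2, c3, d3] at he
          rcases he with ⟨e1, e2⟩ | ⟨e1, e2⟩
          · simp only [Prod.mk.injEq] at e2
            exact ⟨e2.1, e2.2.1, e2.2.2.1, by omega⟩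
          · rw [e1] at s1
            simp at s1
    · omega
    · -- p = 0, p' ≥ 1 own
      rcases B with ⟨c1, c2⟩ | ⟨c1, c2⟩ | ⟨c1, c2, c3⟩
      · omega
      · rw [a2, b3, c2] at he
        rcases he with ⟨e1, e2⟩ | ⟨e1, e2⟩
        · rw [e1] at s1
          simp at s1; omega
        · rw [e2] at t1
          simp at t1; omega
      · rw [a2, b3, c3] at he
        rcases he with ⟨e1, e2⟩ | ⟨e1, e2⟩
        · rw [e1] at s1
          simp at s1; omega
        · rcases B' with ⟨d1, d2⟩ | ⟨d1, d2⟩ | ⟨d1, d2, d3⟩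
          · omega
          · rw [d2] at e1
            simp only [Prod.mk.injEq] at e2
            obtain ⟨f1, f2, f3, f4⟩ := e2
            subst f1 f2 f3
            exact absurd e1 n1
          · rw [d3] at e1
            rw [e1] at s1
            simp at s1
  · omega
  · rcases A' with ⟨b1, b2⟩ | ⟨b1, b2⟩ | ⟨b1, b2, b3⟩
    · -- p ≥ 1 own, p' = 0
      rcases B' with ⟨c1, c2⟩ | ⟨c1, c2⟩ | ⟨c1, c2, c3⟩
      · omega
      · rw [a3, b2, c2] at he
        rcases he with ⟨e1, e2⟩ | ⟨e1, e2⟩
        · rw [← e1] at s2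
          simp at s2; omega
        · rw [← e1] at t2
          simp at t2; omega
      · rw [a3, b2, c3] at he
        rcases he with ⟨e1, e2⟩ | ⟨e1, e2⟩
        · rw [← e1] at s2
          simp at s2; omega
        · rcases B with ⟨d1, d2⟩ | ⟨d1, d2⟩ | ⟨d1, d2, d3⟩
          · omega
          · rw [d2] at e2
            simp only [Prod.mk.injEq] at e1
            obtain ⟨f1, f2, f3, f4⟩ := e1
            subst f1 f2 f3
            exact absurd e2.symm n1
          · rw [d3] at e2
            rw [← e2] at s2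
            simp at s2
    · omega
    · -- both own
      rcases he with ⟨e1, e2⟩ | ⟨e1, e2⟩
      · rw [a3, b3] at e1
        simp only [Prod.mk.injEq] at e1
        obtain ⟨f1, f2, f3, f4⟩ := e1
        subst f1 f2 f3
        refine ⟨rfl, rfl, rfl, ?_⟩
        rcases B with ⟨c1, c2⟩ | ⟨c1, c2⟩ | ⟨c1, c2, c3⟩
        · omega
        · rcases B' with ⟨d1, d2⟩ | ⟨d1, d2⟩ | ⟨d1, d2, d3⟩
          · omega
          · omega
          · rw [c2, d3] at e2
            rw [e2] at t1
            simp at t1
        · rcases B' with ⟨d1, d2⟩ | ⟨d1, d2⟩ | ⟨d1, d2, d3⟩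
          · omega
          · rw [c3, d2] at e2
            rw [← e2] at t1
            simp at t1
          · rw [c3, d3] at e2
            simp only [Prod.mk.injEq] at e2
            omega
      · exfalso
        rw [a3] at e1
        rw [b3] at e2
        rcases B with ⟨c1, c2⟩ | ⟨c1, c2⟩ | ⟨c1, c2, c3⟩
        · omega
        · rw [c2] at e2
          rw [e2] at t1
          simp at t1; omega
        · rcases B' with ⟨d1, d2⟩ | ⟨d1, d2⟩ | ⟨d1, d2, d3⟩
          · omega
          · rw [d2] at e1
            rw [← e1] at t2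
            simp at t2; omega
          · rw [c3] at e2
            rw [d3] at e1
            simp only [Prod.mk.injEq] at e1 e2
            omega

end InjAux

theorem TaskInj_proof : TaskInj := by
  intro hP hL M k c i j z c' i' j' z' h h' hz hz'
  refine ⟨InjAux.main hP hL M k c i j z c' i' j' z' h h' hz hz', ?_⟩
  intro d i'' j'' y hd he
  have hp := (hP M c i j z (by omega)).1
  obtain ⟨h2, h4, -, -⟩ := h
  have key : ∀ q, q ≤ len M c + 1 → vx M k c i j q ≠ ((d, i'', j'', y + 1) : Lb) := by
    intro q hq hqe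
    rcases InjAux.vx_cases M k c i j q hq with ⟨a1, a2⟩ | ⟨a1, a2⟩ | ⟨a1, a2, a3⟩
    · have := (InjAux.src_kind c i j).2
      rw [← a2, hqe] at this
      simp at this
    · have := (InjAux.tgt_kind k c i j).2
      rw [← a2, hqe] at this
      simp at this
    · rw [a3] at hqe
      simp only [Prod.mk.injEq] at hqe
      omega
  unfold ed at he
  rw [Sym2.eq_iff] at he
  rcases he with ⟨e1, e2⟩ | ⟨e1, e2⟩
  · exact key (z + 1) (by omega) e2
  · exact key _ (by omega) e1

end Pool.Agent.Q322.CD
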