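import Pool.Agent.Q322.CD.Stmts
import Pool.Agent.Q322.DS.Red

/-!
# Assembly
-/

namespace Pool.Agent.Q322.CD

open Pool.Agent.NPC Pool.Agent.H633R2 Pool.Agent.Q322

theorem Del.mono {V : Type} {G : SimpleGraph V} {K K' h : ℕ} (hK : K ≤ K') (H : Del G K h) :
    Del G K' h := by
  obtain ⟨F, h1, h2⟩ := H
  exact ⟨F, h1.trans hK, h2⟩

theorem inst_iff_of (hT : TaskTransfer)
    (hA : (∀ R, (allLb R).Nodup) ∧ ∀ (M : List (List Bool)) (k : ℕ) (x y : Lb),
      (Gr M k).Adj x y → x ∈ allLb (hh M k + k + 8))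
    (hf : ∀ (M : List (List Bool)) (k : ℕ), (∃ w, CliqueSeq M k w) → Del (Gr M k) (3 * (k * k)) (hh M k))
    (hb : ∀ (M : List (List Bool)) (k : ℕ), Del (Gr M k) (3 * (k * k)) (hh M k) → ∃ w, CliqueSeq M k w)
    (x : List (List Bool) × ℕ) : HasClique x ↔ EdgeDel (inst x) := by
  obtain ⟨M, k₀⟩ := x
  rw [hasClique_iff]
  simp only
  rw [DS.cliqueSeq_min]
  unfold inst
  simp only
  generalize min k₀ (M.length + 1) = k
  rw [hT Lb (allLb (hh M k + k + 8)) (adE (E M k)) (Gr M k) (max 1 (3 * (k * k))) (hh M k) (hA.1 _)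
    (by omega) (by unfold hh; omega)
    (fun x y => by rw [Gr, SimpleGraph.fromRel_adj]; simp only [adE, decide_eq_true_eq])
    (fun x y h => hA.2 M k x y h)]
  constructor
  · intro h
    exact (hf M k h).mono (le_max_right _ _)
  · intro h
    rcases Nat.eq_zero_or_pos k with rfl | hk
    · exact ⟨fun _ => 0, fun i hi => absurd hi (by omega), fun i hi => absurd hi (by omega)⟩
    · refine hb M k ?_
      have h1 : 1 ≤ k * k := Nat.mul_pos hk hk
      rwa [max_eq_right (by omega)] at h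

theorem bound_computable : Computable (fun n : ℕ => 1 + 3 * (n * n)) :=
  (Primrec.nat_add.comp (Primrec.const 1) (Primrec.nat_mul.comp (Primrec.const 3)
    (Primrec.nat_mul.comp Primrec.id Primrec.id))).to_comp

theorem w1_of (hi : ∀ x, HasClique x ↔ EdgeDel (inst x)) (hp : TaskPoly) :
    W1Hard (fun x : List (List Bool) × ℕ × ℕ => x.2.1) EdgeDel :=
  W1Hard.of_clique ⟨inst, fun n => 1 + 3 * (n * n), FptTime.of_poly hp, bound_computable,
    fun x => ⟨hi x, by
      change max 1 (3 * (min x.2 (x.1.length + 1) * min x.2 (x.1.length + 1))) ≤ 1 + 3 * (x.2 * x.2)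
      have h1 : min x.2 (x.1.length + 1) * min x.2 (x.1.length + 1) ≤ x.2 * x.2 :=
        Nat.mul_le_mul (min_le_left _ _) (min_le_left _ _)
      omega⟩⟩

end Pool.Agent.Q322.CD
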