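import Pool.Agent.Q322.CD.Stmts

namespace Pool.Agent.Q322.CD

open Pool.Agent.NPC Pool.Agent.H633R2 Pool.Agent.Q322

theorem taskReach2 : TaskReach := by
  intro hprv hlen hadj M k c i j F m m' hc hm hm' hF z
  induction z using Nat.strong_induction_on with
  | _ z ih =>
    intro h1 h2
    rcases Nat.eq_or_lt_of_le h1 with h0 | h0
    · subst h0
      exact SimpleGraph.Reachable.refl _
    · obtain ⟨y, rfl⟩ : ∃ y, z = y + 1 := ⟨z - 1, by omega⟩
      obtain ⟨p1, p2, p3⟩ := hprv M c i j y (by omega)
      have h3 := p3 m (by omega) hm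
      have h4 := ih (prv M c i j (y + 1)) (by omega) h3 (by omega)
      have h5 : (Gr M k).Adj (vx M k c i j (prv M c i j (y + 1))) (vx M k c i j (y + 1)) := by
        rw [hadj hprv M k]
        right
        exact ⟨c, i, j, y, hc, by omega, rfl⟩
      have h6 : ((Gr M k).deleteEdges F).Adj (vx M k c i j (prv M c i j (y + 1)))
          (vx M k c i j (y + 1)) := by
        rw [SimpleGraph.deleteEdges_adj]
        exact ⟨h5, hF y (by omega) (by omega)⟩
      exact h4.trans h6.reachable

end Pool.Agent.Q322.CD
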