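import Pool.Agent.Q322.CD.Defs
import Pool.Agent.Q322.Mat

/-!
# Blueprint: edge deletion to small components is W[1]-hard in the number of edges (MP_613513_lc)

A `k × k` torus of crossings: heavy nodes `a_ij` (kind 0) and `b_ij` (kind 1) (a center with many leaves), and
paths `Y_ij : a_ij → b_ij` (kind 2), `R_ij : b_ij → a_{i,j+1}` (kind 3), `C_ij : b_ij → a_{i+1,j}` (kind 4). A path
has the positions `0` (source), `1..len` (vertices of its own), `len + 1` (target), every position
`z + 1` is joined to the position `prv (z + 1) ≤ z`, the last head before it. Heads are the position `0` and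
the positions `a + 1` with `a` allowed (`alw`). With `3 k²` deletions each path is cut exactly once, at an
edge `ed x` with `x` allowed; the source gets `x` vertices of the path, the target the other `len - x`. The
sizes force that a flow `N w_i` runs along the row `i` and a flow `w_j` along the column `j`, and the allowed
positions of `Y_ij` check adjacency (equality for `i = j`). -/

namespace Pool.Agent.Q322.CD

open Pool.Agent.NPC Pool.Agent.H633R2 Pool.Agent.Q322

abbrev Lb := ℕ × ℕ × ℕ × ℕ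

/-- the base of the code -/
def NN (M : List (List Bool)) : ℕ := M.length + 2

/-- allowed positions of the path of kind `c` (2, 3, 4) at `(i, j)` -/
def alw (M : List (List Bool)) (c i j a : ℕ) : Bool :=
  if c = 2 then decide (a = NN M * NN M) || (decide (a < NN M * NN M) &&
    (decide (a / NN M < M.length) && (decide (a % NN M < M.length) &&
      (if i = j then decide (a / NN M = a % NN M) else adjB M (a / NN M) (a % NN M)))))
  else if c = 3 then decide (a < NN M * NN M) && decide (a % NN M = 0)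
  else decide (a < NN M)

/-- the number of vertices of a path; it is the largest allowed position -/
def len (M : List (List Bool)) (c : ℕ) : ℕ :=
  if c = 2 then NN M * NN M else if c = 3 then (NN M - 1) * NN M else NN M - 1

def src (c i j : ℕ) : Lb := (if c = 2 then 0 else 1, i, j, 0)

def tgt (k c i j : ℕ) : Lb :=
  if c = 2 then (1, i, j, 0) else if c = 3 then (0, i, (j + 1) % k, 0) else (0, (i + 1) % k, j, 0)

/-- the vertex at the position `z` of a path -/
def vx (M : List (List Bool)) (k c i j z : ℕ) : Lb :=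
  if z = 0 then src c i j else if z = len M c + 1 then tgt k c i j else (c, i, j, z)

/-- the position `z` is a head -/
def hd (M : List (List Bool)) (c i j z : ℕ) : Bool := decide (z = 0) || alw M c i j (z - 1)

/-- the last head before `z` -/
def prv (M : List (List Bool)) (c i j z : ℕ) : ℕ :=
  (((List.range (len M c + 2)).filter (fun y => decide (y < z) && hd M c i j y)).reverse).headD 0

/-- number of leaves of a node of kind `d` (0 or 1) -/
def bas (M : List (List Bool)) (k d : ℕ) : ℕ := NN M * NN M + 3 * (k * k) + (1 - d)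

/-- the bound for the components -/
def hh (M : List (List Bool)) (k : ℕ) : ℕ := 1 + 2 * (NN M * NN M) + 3 * (k * k)

def E (M : List (List Bool)) (k : ℕ) : List (Lb × Lb) :=
  (List.range k).flatMap fun i => (List.range k).flatMap fun j =>
    ([0, 1].flatMap fun d => (List.range (bas M k d)).map fun z => ((d, i, j, 0), (d, i, j, z + 1))) ++
    ([2, 3, 4].flatMap fun c => (List.range (len M c + 1)).map fun z =>
      (vx M k c i j (prv M c i j (z + 1)), vx M k c i j (z + 1)))

def Gr (M : List (List Bool)) (k : ℕ) : SimpleGraph Lb := SimpleGraph.fromRel fun x y => (x, y) ∈ E M k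

/-- the edge of a path which belongs to the position `z + 1` -/
def ed (M : List (List Bool)) (k c i j z : ℕ) : Sym2 Lb :=
  s(vx M k c i j (prv M c i j (z + 1)), vx M k c i j (z + 1))

/-- edge deletion in an arbitrary graph (finite sets of vertices in one component have at most `h` elements) -/
def Del {V : Type} (G : SimpleGraph V) (K h : ℕ) : Prop :=
  ∃ F : Finset (Sym2 V), F.card ≤ K ∧ ∀ (v : V) (T : Finset V),
    (∀ w ∈ T, (G.deleteEdges (F : Set (Sym2 V))).Reachable v w) → T.card ≤ h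

def CIJ (k c i j : ℕ) : Prop := 2 ≤ c ∧ c ≤ 4 ∧ i < k ∧ j < k

/-- transfer between the matrix graph and a graph on labels -/
def TaskTransfer : Prop := ∀ (Λ : Type) (vs : List Λ) (ad : Λ → Λ → Bool) (H : SimpleGraph Λ) (K h : ℕ),
  vs.Nodup → 0 < K → 0 < h → (∀ x y, H.Adj x y ↔ x ≠ y ∧ (ad x y = true ∨ ad y x = true)) →
    (∀ x y, H.Adj x y → x ∈ vs) → (EdgeDel (mat vs ad, K, h) ↔ Del H K h)

/-- for `z ≤ len + 1`: `prv (z + 1)` is a head `≤ z`, heads `m ≤ z` are `≤ prv (z + 1)` -/
def TaskPrv : Prop := ∀ (M : List (List Bool)) (c i j z : ℕ), z ≤ len M c + 1 →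
  prv M c i j (z + 1) ≤ z ∧ hd M c i j (prv M c i j (z + 1)) = true ∧
    ∀ m ≤ z, hd M c i j m = true → m ≤ prv M c i j (z + 1)

/-- all allowed positions are `≤ len`, and `len` is allowed -/
def TaskLen : Prop := ∀ (M : List (List Bool)) (c i j : ℕ), 2 ≤ c → c ≤ 4 →
  (∀ a, alw M c i j a = true → a ≤ len M c) ∧ alw M c i j (len M c) = true ∧ 0 < len M c

/-- Adjacency in `Gr`. -/
def TaskAdj : Prop := TaskPrv → ∀ (M : List (List Bool)) (k : ℕ) (x y : Lb), (Gr M k).Adj x y ↔
  (∃ d i j z, d ≤ 1 ∧ i < k ∧ j < k ∧ z < bas M k d ∧ s(x, y) = s((d, i, j, 0), (d, i, j, z + 1))) ∨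
    ∃ c i j z, CIJ k c i j ∧ z ≤ len M c ∧ s(x, y) = ed M k c i j z

/-- The path edges are different for different `(c, i, j, z)`, and different from the leaf edges of nodes. -/
def TaskInj : Prop := TaskPrv → TaskLen → ∀ (M : List (List Bool)) (k c i j z c' i' j' z' : ℕ),
  CIJ k c i j → CIJ k c' i' j' → z ≤ len M c → z' ≤ len M c' →
    (ed M k c i j z = ed M k c' i' j' z' → c = c' ∧ i = i' ∧ j = j' ∧ z = z') ∧
    ∀ d i'' j'' y, d ≤ 1 → ed M k c i j z ≠ s(((d, i'', j'', 0) : Lb), (d, i'', j'', y + 1))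

/-- connection along a path, if no edge between the positions is deleted (strong induction on `z`) -/
def TaskReach : Prop := TaskPrv → TaskLen → TaskAdj → ∀ (M : List (List Bool)) (k c i j : ℕ)
  (F : Set (Sym2 Lb)) (m m' : ℕ), CIJ k c i j → hd M c i j m = true → m' ≤ len M c + 1 →
    (∀ y, m ≤ y → y < m' → ed M k c i j y ∉ F) → ∀ z, m ≤ z → z ≤ m' →
      ((Gr M k).deleteEdges F).Reachable (vx M k c i j m) (vx M k c i j z)

/-- connection of the ends of a path, if no edge at an allowed position is deleted (strong induction on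
heads) -/
def TaskChain : Prop := TaskPrv → TaskLen → TaskAdj → ∀ (M : List (List Bool)) (k c i j : ℕ)
  (F : Set (Sym2 Lb)), CIJ k c i j → (∀ y ≤ len M c, alw M c i j y = true → ed M k c i j y ∉ F) →
    ((Gr M k).deleteEdges F).Reachable (src c i j) (tgt k c i j)

/-- two different centers cannot be connected: their leaves, except for at most `|F|` ones, and they
themselves are more than `hh` vertices -/
def TaskHeavy : Prop := TaskPrv → TaskAdj → ∀ (M : List (List Bool)) (k : ℕ) (F : Finset (Sym2 Lb))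
  (d i j d' i' j' : ℕ), F.card ≤ 3 * (k * k) → d ≤ 1 → d' ≤ 1 → i < k → j < k → i' < k → j' < k →
    (d, i, j) ≠ (d', i', j') →
    (∀ (v : Lb) (T : Finset Lb), (∀ w ∈ T, ((Gr M k).deleteEdges (F : Set (Sym2 Lb))).Reachable v w) →
      T.card ≤ hh M k) →
    ¬ ((Gr M k).deleteEdges (F : Set (Sym2 Lb))).Reachable (d, i, j, 0) (d', i', j', 0)

/-- pigeonhole: a set of `≤ 3 k²` edges which meets the allowed edges of each path consists of one allowed edge
of each path -/
def TaskPigeon : Prop := TaskPrv → TaskLen → TaskInj → ∀ (M : List (List Bool)) (k : ℕ)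
  (F : Finset (Sym2 Lb)), F.card ≤ 3 * (k * k) →
    (∀ c i j, CIJ k c i j → ∃ y ≤ len M c, alw M c i j y = true ∧ ed M k c i j y ∈ F) →
    ∃ X : ℕ → ℕ → ℕ → ℕ, (∀ c i j, CIJ k c i j → alw M c i j (X c i j) = true) ∧
      ∀ e ∈ F, ∃ c i j, CIJ k c i j ∧ e = ed M k c i j (X c i j)

/-- the component of `a_ij` and of `b_ij`: counts -/
def TaskIneq : Prop := TaskPrv → TaskLen → TaskAdj → TaskInj → TaskReach → ∀ (M : List (List Bool)) (k : ℕ)
  (F : Finset (Sym2 Lb)) (X : ℕ → ℕ → ℕ → ℕ), (∀ c i j, CIJ k c i j → alw M c i j (X c i j) = true) →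
    (∀ e ∈ F, ∃ c i j, CIJ k c i j ∧ e = ed M k c i j (X c i j)) →
    (∀ (v : Lb) (T : Finset Lb), (∀ w ∈ T, ((Gr M k).deleteEdges (F : Set (Sym2 Lb))).Reachable v w) →
      T.card ≤ hh M k) → ∀ i < k, ∀ j < k, X 3 i j + X 4 i j ≤ X 2 i j ∧
        X 2 ((i + 1) % k) ((j + 1) % k) ≤ X 3 ((i + 1) % k) j + X 4 i ((j + 1) % k)

/-- arithmetic: summing over all `(i, j)` all inequalities are equalities -/
def TaskArith : Prop := ∀ (M : List (List Bool)) (k : ℕ) (X : ℕ → ℕ → ℕ → ℕ),
  (∀ c i j, CIJ k c i j → alw M c i j (X c i j) = true) →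
    (∀ i < k, ∀ j < k, X 3 i j + X 4 i j ≤ X 2 i j ∧
      X 2 ((i + 1) % k) ((j + 1) % k) ≤ X 3 ((i + 1) % k) j + X 4 i ((j + 1) % k)) →
    ∃ w, CliqueSeq M k w

/-- the owner of a vertex, for given cuts `X` -/
def ow (k : ℕ) (X : ℕ → ℕ → ℕ → ℕ) (x : Lb) : Lb :=
  if x.1 ≤ 1 then (x.1, x.2.1, x.2.2.1, 0) else
    if x.2.2.2 ≤ X x.1 x.2.1 x.2.2.1 then src x.1 x.2.1 x.2.2.1 else tgt k x.1 x.2.1 x.2.2.1

/-- the owner is constant on components -/
def TaskOwner : Prop := TaskPrv → TaskLen → TaskAdj → ∀ (M : List (List Bool)) (k : ℕ)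
  (X : ℕ → ℕ → ℕ → ℕ) (F : Set (Sym2 Lb)), (∀ c i j, CIJ k c i j → alw M c i j (X c i j) = true) →
    (∀ c i j, CIJ k c i j → ed M k c i j (X c i j) ∈ F) → ∀ x y, ((Gr M k).deleteEdges F).Reachable x y →
      ow k X x = ow k X y

/-- the vertices of the network -/
def Vld (M : List (List Bool)) (k : ℕ) (x : Lb) : Prop :=
  x.2.1 < k ∧ x.2.2.1 < k ∧ ((x.1 ≤ 1 ∧ x.2.2.2 ≤ bas M k x.1) ∨
    (2 ≤ x.1 ∧ x.1 ≤ 4 ∧ 1 ≤ x.2.2.2 ∧ x.2.2.2 ≤ len M x.1))

/-- the classes of the owners have at most `hh` elements, if the inequalities hold -/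
def TaskSize : Prop := ∀ (M : List (List Bool)) (k : ℕ) (X : ℕ → ℕ → ℕ → ℕ),
  (∀ c i j, CIJ k c i j → X c i j ≤ len M c) →
    (∀ i < k, ∀ j < k, X 3 i j + X 4 i j = X 2 i j ∧
      X 2 ((i + 1) % k) ((j + 1) % k) = X 3 ((i + 1) % k) j + X 4 i ((j + 1) % k)) →
    ∀ (o : Lb) (T : Finset Lb), (∀ w ∈ T, Vld M k w ∧ ow k X w = o) → T.card ≤ hh M k

/-- `X 2 i j = w i * N + w j`, `X 3 i j = w i * N`, `X 4 i j = w j`; vertices outside `Vld` are isolated -/
def TaskFwd : Prop := TaskPrv → TaskLen → TaskAdj → TaskOwner → TaskSize →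
  ∀ (M : List (List Bool)) (k : ℕ), (∃ w, CliqueSeq M k w) → Del (Gr M k) (3 * (k * k)) (hh M k)

/-- combination of Chain, Heavy, Pigeon, Ineq, Arith (`src` and `tgt` are different centers) -/
def TaskBwd : Prop := TaskPrv → TaskLen → TaskAdj → TaskInj → TaskReach → TaskChain → TaskHeavy →
  TaskPigeon → TaskIneq → TaskArith → ∀ (M : List (List Bool)) (k : ℕ),
    Del (Gr M k) (3 * (k * k)) (hh M k) → ∃ w, CliqueSeq M k w

/-- all labels with coordinates `< R` -/
def allLb (R : ℕ) : List Lb :=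
  List.range R ×ˢ (List.range R ×ˢ (List.range R ×ˢ List.range R))

def adE (L : List (Lb × Lb)) (x y : Lb) : Bool := decide ((x, y) ∈ L)

/-- the reduction (`k' = min k (n + 1)`) -/
def inst (x : List (List Bool) × ℕ) : List (List Bool) × ℕ × ℕ :=
  (mat (allLb (hh x.1 (min x.2 (x.1.length + 1)) + min x.2 (x.1.length + 1) + 8))
    (adE (E x.1 (min x.2 (x.1.length + 1)))),
    max 1 (3 * (min x.2 (x.1.length + 1) * min x.2 (x.1.length + 1))),
    hh x.1 (min x.2 (x.1.length + 1)))

/-- all ends of edges are in `allLb`, and it has no repetitions -/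
def TaskAll : Prop := TaskPrv → TaskAdj → (∀ R, (allLb R).Nodup) ∧ ∀ (M : List (List Bool)) (k : ℕ) (x y : Lb),
  (Gr M k).Adj x y → x ∈ allLb (hh M k + k + 8)

/-- polynomial time (see Pool.Agent.Q322.DS.Red: E_poly, inst_poly; `Poly` of `headD`: poly_headD in CC/PolyC) -/
def TaskPoly : Prop := Poly inst

end Pool.Agent.Q322.CD
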