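import Pool.Agent.Q322.CD.Stmts

/-!
Adjacency in the network (blueprint of helper322 for MP_613513_lc).
-/

set_option autoImplicit false

namespace Pool.Agent.Q322.CD

open Pool.Agent.NPC Pool.Agent.H633R2 Pool.Agent.Q322

private lemma taskAdj_memE (M : List (List Bool)) (k : ℕ) (x y : Lb) : (x, y) ∈ E M k ↔
    (∃ d i j z, d ≤ 1 ∧ i < k ∧ j < k ∧ z < bas M k d ∧
      x = ((d, i, j, 0) : Lb) ∧ y = ((d, i, j, z + 1) : Lb)) ∨
    ∃ c i j z, CIJ k c i j ∧ z ≤ len M c ∧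
      x = vx M k c i j (prv M c i j (z + 1)) ∧ y = vx M k c i j (z + 1) := by
  unfold E
  simp only [List.mem_flatMap, List.mem_range, List.mem_append, List.mem_map, Prod.mk.injEq]
  constructor
  · rintro ⟨i, hi, j, hj, h | h⟩
    · obtain ⟨d, hd, z, hz, hx, hy⟩ := h
      have hd' : d ≤ 1 := by
        simp only [List.mem_cons, List.not_mem_nil, or_false] at hd
        omega
      exact Or.inl ⟨d, i, j, z, hd', hi, hj, hz, hx.symm, hy.symm⟩
    · obtain ⟨c, hc, z, hz, hx, hy⟩ := h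
      have hc' : 2 ≤ c ∧ c ≤ 4 := by
        simp only [List.mem_cons, List.not_mem_nil, or_false] at hc
        omega
      exact Or.inr ⟨c, i, j, z, ⟨hc'.1, hc'.2, hi, hj⟩, by omega, hx.symm, hy.symm⟩
  · rintro (⟨d, i, j, z, hd, hi, hj, hz, hx, hy⟩ | ⟨c, i, j, z, ⟨hc1, hc2, hi, hj⟩, hz, hx, hy⟩)
    · refine ⟨i, hi, j, hj, Or.inl ⟨d, ?_, z, hz, hx.symm, hy.symm⟩⟩
      simp only [List.mem_cons, List.not_mem_nil, or_false]
      omega
    · refine ⟨i, hi, j, hj, Or.inr ⟨c, ?_, z, by omega, hx.symm, hy.symm⟩⟩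
      simp only [List.mem_cons, List.not_mem_nil, or_false]
      omega

private lemma taskAdj_ne (hP : TaskPrv) (M : List (List Bool)) (k c i j z : ℕ) (hc1 : 2 ≤ c)
    (hz : z ≤ len M c) :
    vx M k c i j (prv M c i j (z + 1)) ≠ vx M k c i j (z + 1) := by
  have h1 := (hP M c i j z (by omega)).1
  obtain ⟨m, hm⟩ : ∃ m, m = prv M c i j (z + 1) := ⟨_, rfl⟩
  rw [← hm] at h1 ⊢
  intro h
  have hfst := congrArg (fun v : Lb => v.1) h
  have hlast := congrArg (fun v : Lb => v.2.2.2) h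
  unfold vx src tgt at hfst hlast
  by_cases h0 : m = 0
  · by_cases hz1 : z = len M c
    · by_cases hc2 : c = 2
      · simp [h0, hz1, hc2] at hfst
      · by_cases hc3 : c = 3
        · simp [h0, hz1, hc3] at hfst
        · simp [h0, hz1, hc2, hc3] at hfst
    · have hz2 : ¬ (z + 1 = len M c + 1) := by omega
      by_cases hc2 : c = 2
      · simp [h0, hc2] at hfst
        split_ifs at hfst <;> omega
      · simp [h0, hc2] at hfst
        split_ifs at hfst <;> omega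
  · have hm2 : ¬ (m = len M c + 1) := by omega
    by_cases hz1 : z = len M c
    · simp only [h0, hm2, hz1, if_true, if_false] at hfst
      by_cases hc2 : c = 2
      · simp [hc2] at hfst
      · by_cases hc3 : c = 3
        · simp [hc3] at hfst
        · simp [hc2, hc3] at hfst
          omega
    · have hz2 : ¬ (z + 1 = len M c + 1) := by omega
      simp only [h0, hm2, hz2, if_false, Nat.succ_ne_zero] at hlast
      omega

theorem taskAdj : TaskAdj := by
  intro hP M k x y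
  unfold Gr
  rw [SimpleGraph.fromRel_adj]
  constructor
  · rintro ⟨_, h | h⟩
    · rcases (taskAdj_memE M k x y).1 h with ⟨d, i, j, z, hd, hi, hj, hz, rfl, rfl⟩ |
        ⟨c, i, j, z, hc, hz, rfl, rfl⟩
      · exact Or.inl ⟨d, i, j, z, hd, hi, hj, hz, rfl⟩
      · exact Or.inr ⟨c, i, j, z, hc, hz, rfl⟩
    · rcases (taskAdj_memE M k y x).1 h with ⟨d, i, j, z, hd, hi, hj, hz, rfl, rfl⟩ |
        ⟨c, i, j, z, hc, hz, rfl, rfl⟩
      · exact Or.inl ⟨d, i, j, z, hd, hi, hj, hz, Sym2.eq_swap⟩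
      · exact Or.inr ⟨c, i, j, z, hc, hz, Sym2.eq_swap⟩
  · rintro (⟨d, i, j, z, hd, hi, hj, hz, h⟩ | ⟨c, i, j, z, hc, hz, h⟩)
    · have hne : ((d, i, j, 0) : Lb) ≠ (d, i, j, z + 1) := by
        intro hh
        have := congrArg (fun v : Lb => v.2.2.2) hh
        simp at this
      rcases Sym2.eq_iff.1 h with ⟨rfl, rfl⟩ | ⟨rfl, rfl⟩
      · exact ⟨hne, Or.inl ((taskAdj_memE M k _ _).2 (Or.inl ⟨d, i, j, z, hd, hi, hj, hz, rfl, rfl⟩))⟩
      · exact ⟨hne.symm, Or.inr ((taskAdj_memE M k _ _).2 (Or.inl ⟨d, i, j, z, hd, hi, hj, hz, rfl, rfl⟩))⟩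
    · have hne := taskAdj_ne hP M k c i j z hc.1 hz
      unfold ed at h
      rcases Sym2.eq_iff.1 h with ⟨rfl, rfl⟩ | ⟨rfl, rfl⟩
      · exact ⟨hne, Or.inl ((taskAdj_memE M k _ _).2 (Or.inr ⟨c, i, j, z, hc, hz, rfl, rfl⟩))⟩
      · exact ⟨hne.symm, Or.inr ((taskAdj_memE M k _ _).2 (Or.inr ⟨c, i, j, z, hc, hz, rfl, rfl⟩))⟩

end Pool.Agent.Q322.CD
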