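import Pool.Agent.Q322.CD.Stmts

namespace Pool.Agent.Q322.CD

open Pool.Agent.NPC Pool.Agent.H633R2 Pool.Agent.Q322

private theorem mem_allLb {R : ℕ} {x : Lb} :
    x ∈ allLb R ↔ x.1 < R ∧ x.2.1 < R ∧ x.2.2.1 < R ∧ x.2.2.2 < R := by
  obtain ⟨a, b, c, d⟩ := x
  simp [allLb]

private theorem len_le (M : List (List Bool)) (c : ℕ) : len M c ≤ NN M * NN M := by
  unfold len
  have h : 1 ≤ NN M := by unfold NN; omega
  split_ifs
  · exact le_rfl
  · exact Nat.mul_le_mul_right _ (Nat.sub_le _ _)
  · calc NN M - 1 ≤ NN M := Nat.sub_le _ _
      _ ≤ NN M * NN M := Nat.le_mul_of_pos_left _ h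

private theorem vx_mem (M : List (List Bool)) (k c i j p : ℕ) (h : CIJ k c i j) (hp : p ≤ len M c + 1) :
    vx M k c i j p ∈ allLb (hh M k + k + 8) := by
  obtain ⟨h1, h2, h3, h4⟩ := h
  have hk : 0 < k := by omega
  have m1 := Nat.mod_lt (j + 1) hk
  have m2 := Nat.mod_lt (i + 1) hk
  have hl := len_le M c
  rw [mem_allLb]
  unfold vx
  split_ifs with h5 h6
  · unfold src
    refine ⟨?_, ?_, ?_, ?_⟩
    · show (if c = 2 then 0 else 1) < _
      split_ifs <;> omega
    · show i < _
      omega
    · show j < _
      omega
    · show 0 < _
      omega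
  · unfold tgt
    split_ifs
    · refine ⟨?_, ?_, ?_, ?_⟩
      · show 1 < _
        omega
      · show i < _
        omega
      · show j < _
        omega
      · show 0 < _
        omega
    · refine ⟨?_, ?_, ?_, ?_⟩
      · show 0 < _
        omega
      · show i < _
        omega
      · show (j + 1) % k < _
        omega
      · show 0 < _
        omega
    · refine ⟨?_, ?_, ?_, ?_⟩
      · show 0 < _
        omega
      · show (i + 1) % k < _
        omega
      · show j < _
        omega
      · show 0 < _
        omega
  · refine ⟨?_, ?_, ?_, ?_⟩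
    · show c < _
      omega
    · show i < _
      omega
    · show j < _
      omega
    · show p < _
      unfold hh
      omega

theorem taskAll : TaskAll := by
  intro hPrv hAdj
  refine ⟨fun R => ?_, fun M k x y hxy => ?_⟩
  · exact List.nodup_range.product (List.nodup_range.product (List.nodup_range.product List.nodup_range))
  · rcases (hAdj hPrv M k x y).1 hxy with ⟨d, i, j, z, h1, h2, h3, h4, h5⟩ | ⟨c, i, j, z, h1, h2, h3⟩
    · have hz : z + 1 < hh M k + k + 8 := by
        unfold bas at h4
        unfold hh
        omega
      rw [Sym2.eq_iff] at h5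
      rw [mem_allLb]
      rcases h5 with ⟨h5, _⟩ | ⟨h5, _⟩
      · subst h5
        refine ⟨?_, ?_, ?_, ?_⟩
        · show d < _
          omega
        · show i < _
          omega
        · show j < _
          omega
        · show 0 < _
          omega
      · subst h5
        refine ⟨?_, ?_, ?_, ?_⟩
        · show d < _
          omega
        · show i < _
          omega
        · show j < _
          omega
        · show z + 1 < _
          exact hz
    · unfold ed at h3
      rw [Sym2.eq_iff] at h3
      rcases h3 with ⟨h3, _⟩ | ⟨h3, _⟩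
      · rw [h3]
        exact vx_mem M k c i j _ h1 (by have := (hPrv M c i j z (by omega)).1; omega)
      · rw [h3]
        exact vx_mem M k c i j _ h1 (by omega)

end Pool.Agent.Q322.CD
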