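import Pool.Agent.Q322.CD.Stmts

/-!
# Arithmetic of the torus: all inequalities are equalities
-/

namespace Pool.Agent.Q322.CD

open Pool.Agent.NPC Pool.Agent.H633R2 Pool.Agent.Q322

private theorem taskArith_shift (k : ℕ) (f : ℕ → ℕ) :
    ∑ i ∈ Finset.range k, f ((i + 1) % k) = ∑ i ∈ Finset.range k, f i := by
  rcases k with _ | m
  · simp
  · rw [Finset.sum_range_succ, Finset.sum_range_succ' f m, Nat.mod_self]
    congr 1
    apply Finset.sum_congr rfl
    intro i hi
    rw [Nat.mod_eq_of_lt (by have := Finset.mem_range.1 hi; omega)]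

theorem taskArith : TaskArith := by
  intro M k X hal hin
  have hN : 0 < NN M := by unfold NN; omega
  -- equalities
  have hsum : ∑ i ∈ Finset.range k, ∑ j ∈ Finset.range k, X 2 ((i + 1) % k) ((j + 1) % k) =
      ∑ i ∈ Finset.range k, ∑ j ∈ Finset.range k, X 2 i j := by
    rw [taskArith_shift k (fun i => ∑ j ∈ Finset.range k, X 2 i ((j + 1) % k))]
    exact Finset.sum_congr rfl fun i _ => taskArith_shift k (fun j => X 2 i j)
  have hsum3 : ∑ i ∈ Finset.range k, ∑ j ∈ Finset.range k, X 3 ((i + 1) % k) j =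
      ∑ i ∈ Finset.range k, ∑ j ∈ Finset.range k, X 3 i j :=
    taskArith_shift k (fun i => ∑ j ∈ Finset.range k, X 3 i j)
  have hsum4 : ∑ i ∈ Finset.range k, ∑ j ∈ Finset.range k, X 4 i ((j + 1) % k) =
      ∑ i ∈ Finset.range k, ∑ j ∈ Finset.range k, X 4 i j :=
    Finset.sum_congr rfl fun i _ => taskArith_shift k (fun j => X 4 i j)
  have key : ∀ i < k, ∀ j < k, X 3 i j + X 4 i j = X 2 i j ∧
      X 2 ((i + 1) % k) ((j + 1) % k) = X 3 ((i + 1) % k) j + X 4 i ((j + 1) % k) := by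
    have h1 : ∑ i ∈ Finset.range k, ∑ j ∈ Finset.range k, (X 3 i j + X 4 i j) ≤
        ∑ i ∈ Finset.range k, ∑ j ∈ Finset.range k, X 2 i j :=
      Finset.sum_le_sum fun i hi => Finset.sum_le_sum fun j hj =>
        (hin i (Finset.mem_range.1 hi) j (Finset.mem_range.1 hj)).1
    have h2 : ∑ i ∈ Finset.range k, ∑ j ∈ Finset.range k, X 2 ((i + 1) % k) ((j + 1) % k) ≤
        ∑ i ∈ Finset.range k, ∑ j ∈ Finset.range k, (X 3 ((i + 1) % k) j + X 4 i ((j + 1) % k)) :=
      Finset.sum_le_sum fun i hi => Finset.sum_le_sum fun j hj =>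
        (hin i (Finset.mem_range.1 hi) j (Finset.mem_range.1 hj)).2
    have e3 : ∑ i ∈ Finset.range k, ∑ j ∈ Finset.range k, (X 3 i j + X 4 i j) =
        ∑ i ∈ Finset.range k, ∑ j ∈ Finset.range k, X 3 i j +
          ∑ i ∈ Finset.range k, ∑ j ∈ Finset.range k, X 4 i j := by
      simp [Finset.sum_add_distrib]
    have e4 : ∑ i ∈ Finset.range k, ∑ j ∈ Finset.range k,
        (X 3 ((i + 1) % k) j + X 4 i ((j + 1) % k)) =
        ∑ i ∈ Finset.range k, ∑ j ∈ Finset.range k, X 3 i j +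
          ∑ i ∈ Finset.range k, ∑ j ∈ Finset.range k, X 4 i j := by
      rw [← hsum3, ← hsum4]
      simp [Finset.sum_add_distrib]
    rw [hsum] at h2
    have E1 : ∑ i ∈ Finset.range k, ∑ j ∈ Finset.range k, (X 3 i j + X 4 i j) =
        ∑ i ∈ Finset.range k, ∑ j ∈ Finset.range k, X 2 i j := by
      apply le_antisymm h1; rw [e3, ← e4]; exact h2
    have E2 : ∑ i ∈ Finset.range k, ∑ j ∈ Finset.range k, X 2 ((i + 1) % k) ((j + 1) % k) =
        ∑ i ∈ Finset.range k, ∑ j ∈ Finset.range k, (X 3 ((i + 1) % k) j + X 4 i ((j + 1) % k)) := by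
      rw [hsum]; apply le_antisymm h2; rw [e4, ← e3]; exact h1
    intro i hi j hj
    have a1 := (Finset.sum_eq_sum_iff_of_le (fun i hi => Finset.sum_le_sum fun j hj =>
        (hin i (Finset.mem_range.1 hi) j (Finset.mem_range.1 hj)).1)).1 E1 i (Finset.mem_range.2 hi)
    have a2 := (Finset.sum_eq_sum_iff_of_le (fun j hj =>
        (hin i hi j (Finset.mem_range.1 hj)).1)).1 a1 j (Finset.mem_range.2 hj)
    have b1 := (Finset.sum_eq_sum_iff_of_le (fun i hi => Finset.sum_le_sum fun j hj =>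
        (hin i (Finset.mem_range.1 hi) j (Finset.mem_range.1 hj)).2)).1 E2 i (Finset.mem_range.2 hi)
    have b2 := (Finset.sum_eq_sum_iff_of_le (fun j hj =>
        (hin i hi j (Finset.mem_range.1 hj)).2)).1 b1 j (Finset.mem_range.2 hj)
    exact ⟨a2, b2⟩
  have h3 : ∀ i < k, ∀ j < k, ∃ a, a < NN M ∧ X 3 i j = NN M * a := by
    intro i hi j hj
    have := hal 3 i j ⟨by norm_num, by norm_num, hi, hj⟩
    simp only [alw, show ¬ (3 = 2) by norm_num, if_false, if_true, Bool.and_eq_true, decide_eq_true_eq] at this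
    obtain ⟨a, ha⟩ := Nat.dvd_of_mod_eq_zero this.2
    refine ⟨a, ?_, ha⟩
    rw [ha] at this
    exact lt_of_mul_lt_mul_left this.1 (Nat.zero_le _)
  have h4 : ∀ i < k, ∀ j < k, X 4 i j < NN M := by
    intro i hi j hj
    have := hal 4 i j ⟨by norm_num, by norm_num, hi, hj⟩
    simpa [alw] using this
  have uniq : ∀ a b c d : ℕ, b < NN M → d < NN M → NN M * a + b = NN M * c + d → a = c ∧ b = d := by
    intro a b c d hb hd h
    have q1 : (NN M * a + b) / NN M = a := by
      rw [Nat.mul_add_div hN, Nat.div_eq_of_lt hb, add_zero]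
    have q2 : (NN M * c + d) / NN M = c := by
      rw [Nat.mul_add_div hN, Nat.div_eq_of_lt hd, add_zero]
    have : a = c := by rw [← q1, ← q2, h]
    subst this
    exact ⟨rfl, by omega⟩
  -- steps
  have st : ∀ i < k, ∀ j < k, X 3 ((i + 1) % k) ((j + 1) % k) = X 3 ((i + 1) % k) j ∧
      X 4 ((i + 1) % k) ((j + 1) % k) = X 4 i ((j + 1) % k) := by
    intro i hi j hj
    have hk : 0 < k := by omega
    have hi' : (i + 1) % k < k := Nat.mod_lt _ hk
    have hj' : (j + 1) % k < k := Nat.mod_lt _ hk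
    have e1 := (key _ hi' _ hj').1
    have e2 := (key i hi j hj).2
    obtain ⟨a, ha, ea⟩ := h3 _ hi' _ hj'
    obtain ⟨c, hc, ec⟩ := h3 _ hi' _ hj
    have := uniq a _ c _ (h4 _ hi' _ hj') (h4 _ hi _ hj') (by rw [← ea, ← ec, e1, e2])
    exact ⟨by rw [ea, ec, this.1], this.2⟩
  have pred : ∀ i < k, ∃ i' < k, (i' + 1) % k = i := by
    intro i hi
    rcases i with _ | i
    · exact ⟨k - 1, by omega, by rw [Nat.sub_add_cancel (by omega), Nat.mod_self]⟩
    · exact ⟨i, by omega, Nat.mod_eq_of_lt hi⟩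
  have c3 : ∀ i < k, ∀ j < k, X 3 i j = X 3 i 0 := by
    intro i hi j
    induction j with
    | zero => intro _; rfl
    | succ j ih =>
      intro hj
      obtain ⟨i', hi', e⟩ := pred i hi
      have := (st i' hi' j (by omega)).1
      rw [e, Nat.mod_eq_of_lt hj] at this
      rw [this, ih (by omega)]
  have c4 : ∀ j < k, ∀ i < k, X 4 i j = X 4 0 j := by
    intro j hj i
    induction i with
    | zero => intro _; rfl
    | succ i ih =>
      intro hi
      obtain ⟨j', hj', e⟩ := pred j hj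
      have := (st i (by omega) j' hj').2
      rw [e, Nat.mod_eq_of_lt hi] at this
      rw [this, ih (by omega)]
  have h2 : ∀ i < k, ∀ j < k, X 3 i 0 / NN M < M.length ∧ X 4 0 j < M.length ∧
      (if i = j then decide (X 3 i 0 / NN M = X 4 0 j) else adjB M (X 3 i 0 / NN M) (X 4 0 j)) = true := by
    intro i hi j hj
    have := hal 2 i j ⟨by norm_num, by norm_num, hi, hj⟩
    have e1 := (key i hi j hj).1
    obtain ⟨a, ha, ea⟩ := h3 i hi 0 (by omega)
    have hb := h4 0 (by omega) j hj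
    rw [c3 i hi j hj, c4 j hj i hi] at e1
    have hdiv : X 2 i j / NN M = X 3 i 0 / NN M := by
      rw [← e1, ea, Nat.mul_add_div hN, Nat.div_eq_of_lt hb, add_zero, Nat.mul_div_cancel_left _ hN]
    have hmod : X 2 i j % NN M = X 4 0 j := by
      rw [← e1, ea, Nat.mul_add_mod, Nat.mod_eq_of_lt hb]
    have hlt : X 2 i j < NN M * NN M := by
      rw [← e1, ea]
      calc NN M * a + X 4 0 j < NN M * a + NN M := by omega
        _ = NN M * (a + 1) := by ring
        _ ≤ NN M * NN M := Nat.mul_le_mul_left _ ha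
    simp only [alw, if_true, Bool.or_eq_true, decide_eq_true_eq, Bool.and_eq_true, hdiv, hmod] at this
    rcases this with h | h
    · omega
    · exact ⟨h.2.1, h.2.2.1, h.2.2.2⟩
  refine ⟨fun i => X 3 i 0 / NN M, fun i hi => (h2 i hi i hi).1, fun i hi j hj hij => ?_⟩
  have e := (h2 j hj j hj).2.2
  rw [if_pos rfl, decide_eq_true_eq] at e
  have := (h2 i hi j hj).2.2
  rw [if_neg hij, ← e] at this
  exact this
end Pool.Agent.Q322.CD
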