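import Pool.Agent.Q322.CD.Stmts

/-!
Task Bwd of the blueprint for MP_613513_lc.
-/

namespace Pool.Agent.Q322.CD

open Pool.Agent.NPC Pool.Agent.H633R2 Pool.Agent.Q322

theorem taskBwd : TaskBwd := by
  intro hPrv hLen hAdj hInj hReach hChain hHeavy hPigeon hIneq hArith M k hDel
  obtain ⟨F, hF, hT⟩ := hDel
  have h1 : ∀ c i j, CIJ k c i j → ∃ y ≤ len M c, alw M c i j y = true ∧ ed M k c i j y ∈ F := by
    intro c i j hc
    by_contra hcon
    have h2 := hChain hPrv hLen hAdj M k c i j (F : Set (Sym2 Lb)) hc fun y hy ha h =>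
      hcon ⟨y, hy, ha, Finset.mem_coe.1 h⟩
    obtain ⟨hc2, hc4, hi, hj⟩ := hc
    have hk : 0 < k := lt_of_le_of_lt (Nat.zero_le _) hi
    have hi' : (i + 1) % k < k := Nat.mod_lt _ hk
    have hj' : (j + 1) % k < k := Nat.mod_lt _ hk
    unfold src tgt at h2
    rcases (by omega : c = 2 ∨ c = 3 ∨ c = 4) with rfl | rfl | rfl
    · rw [if_pos rfl, if_pos rfl] at h2
      exact hHeavy hPrv hAdj M k F 0 i j 1 i j hF (by omega) (by omega) hi hj hi hj
        (by intro h; simp at h) hT h2
    · rw [if_neg (by omega), if_neg (by omega), if_pos rfl] at h2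
      exact hHeavy hPrv hAdj M k F 1 i j 0 i ((j + 1) % k) hF (by omega) (by omega) hi hj hi hj'
        (by intro h; simp at h) hT h2
    · rw [if_neg (by omega), if_neg (by omega), if_neg (by omega)] at h2
      exact hHeavy hPrv hAdj M k F 1 i j 0 ((i + 1) % k) j hF (by omega) (by omega) hi hj hi' hj
        (by intro h; simp at h) hT h2
  obtain ⟨X, hX, hFX⟩ := hPigeon hPrv hLen hInj M k F hF h1
  exact hArith M k X hX (hIneq hPrv hLen hAdj hInj hReach M k F X hX hFX hT)

end Pool.Agent.Q322.CD
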