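import Pool.Agent.Q322.CD.Stmts

namespace Pool.Agent.Q322.CD

open Pool.Agent.NPC Pool.Agent.H633R2 Pool.Agent.Q322

theorem taskChain : TaskChain := by
  intro hprv hlen hadj M k c i j F hc hF
  have hL := hlen M c i j hc.1 hc.2.1
  have key : ∀ m, m ≤ len M c + 1 → hd M c i j m = true →
      ((Gr M k).deleteEdges F).Reachable (src c i j) (vx M k c i j m) := by
    intro m
    induction m using Nat.strong_induction_on with
    | _ m ih =>
      intro hm hh
      rcases Nat.eq_zero_or_pos m with h0 | h0
      · subst h0
        have : vx M k c i j 0 = src c i j := by simp [vx]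
        rw [this]
      · obtain ⟨z, rfl⟩ : ∃ z, m = z + 1 := ⟨m - 1, by omega⟩
        have ha : alw M c i j z = true := by
          simpa [hd] using hh
        have hz : z ≤ len M c := hL.1 z ha
        obtain ⟨p1, p2, -⟩ := hprv M c i j z (by omega)
        have h1 := ih (prv M c i j (z + 1)) (by omega) (by omega) p2
        have h2 : (Gr M k).Adj (vx M k c i j (prv M c i j (z + 1))) (vx M k c i j (z + 1)) := by
          rw [hadj hprv M k]
          right
          exact ⟨c, i, j, z, hc, hz, rfl⟩
        have h3 : ((Gr M k).deleteEdges F).Adj (vx M k c i j (prv M c i j (z + 1)))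
            (vx M k c i j (z + 1)) := by
          rw [SimpleGraph.deleteEdges_adj]
          exact ⟨h2, hF z hz ha⟩
        exact h1.trans h3.reachable
  have h4 := key (len M c + 1) le_rfl (by simp [hd, hL.2.1])
  have h5 : vx M k c i j (len M c + 1) = tgt k c i j := by simp [vx]
  rwa [h5] at h4

end Pool.Agent.Q322.CD
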