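import Pool.Agent.Q322.CD.Stmts

set_option autoImplicit false

namespace Pool.Agent.Q322.CD

open Pool.Agent.NPC Pool.Agent.H633R2 Pool.Agent.Q322

private theorem taskFwd_vld_vx (M : List (List Bool)) (k c i j m : ℕ) (h : CIJ k c i j) (hm : m ≤ len M c + 1) :
    Vld M k (vx M k c i j m) := by
  obtain ⟨h2, h4, hi, hj⟩ := h
  have hk : 0 < k := by omega
  have hb : ∀ d, 0 ≤ bas M k d := fun d => Nat.zero_le _
  unfold vx
  split_ifs with h0 h1
  · unfold src Vld
    refine ⟨hi, hj, Or.inl ⟨?_, Nat.zero_le _⟩⟩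
    dsimp only
    split_ifs <;> omega
  · unfold tgt
    split_ifs
    · exact ⟨hi, hj, Or.inl ⟨le_refl _, Nat.zero_le _⟩⟩
    · exact ⟨hi, Nat.mod_lt _ hk, Or.inl ⟨Nat.zero_le _, Nat.zero_le _⟩⟩
    · exact ⟨Nat.mod_lt _ hk, hj, Or.inl ⟨Nat.zero_le _, Nat.zero_le _⟩⟩
  · refine ⟨hi, hj, Or.inr ⟨h2, h4, ?_, ?_⟩⟩
    · dsimp only; omega
    · dsimp only; omega

private theorem taskFwd_vld (hP : TaskPrv) (hA : TaskAdj) (M : List (List Bool)) (k : ℕ) (x y : Lb)
    (h : (Gr M k).Adj x y) : Vld M k x := by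
  rw [hA hP] at h
  rcases h with ⟨d, i, j, z, hd, hi, hj, hz, he⟩ | ⟨c, i, j, z, hc, hz, he⟩
  · rw [Sym2.eq_iff] at he
    rcases he with ⟨rfl, -⟩ | ⟨rfl, -⟩
    · exact ⟨hi, hj, Or.inl ⟨hd, Nat.zero_le _⟩⟩
    · exact ⟨hi, hj, Or.inl ⟨hd, hz⟩⟩
  · unfold ed at he
    rw [Sym2.eq_iff] at he
    have h1 := (hP M c i j z (by omega)).1
    rcases he with ⟨rfl, -⟩ | ⟨rfl, -⟩
    · exact taskFwd_vld_vx M k c i j _ hc (by omega)
    · exact taskFwd_vld_vx M k c i j _ hc (by omega)

private theorem taskFwd_nb {V : Type} (G : SimpleGraph V) (v w : V) (h : G.Reachable v w) (hne : v ≠ w) :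
    ∃ u, G.Adj v u := by
  obtain ⟨p⟩ := h
  cases p with
  | nil => exact absurd rfl hne
  | cons h p => exact ⟨_, h⟩

theorem taskFwd : TaskFwd := by
  classical
  intro hP hL hA hO hS M k ⟨w, hw1, hw2⟩
  set X : ℕ → ℕ → ℕ → ℕ := fun c i j => if c = 2 then w i * NN M + w j else if c = 3 then w i * NN M else w j
    with hX
  have hN : NN M = M.length + 2 := rfl
  have hlt : ∀ i < k, ∀ j < k, w i * NN M + w j < NN M * NN M := by
    intro i hi j hj
    have h1 := hw1 i hi
    have h2 := hw1 j hj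
    calc w i * NN M + w j < w i * NN M + NN M := by omega
      _ = (w i + 1) * NN M := by ring
      _ ≤ NN M * NN M := Nat.mul_le_mul_right _ (by omega)
  have hdiv : ∀ i < k, ∀ j < k, (w i * NN M + w j) / NN M = w i := by
    intro i hi j hj
    have h2 := hw1 j hj
    rw [add_comm, Nat.add_mul_div_right _ _ (by omega), Nat.div_eq_of_lt (by omega), zero_add]
  have hmod : ∀ i < k, ∀ j < k, (w i * NN M + w j) % NN M = w j := by
    intro i hi j hj
    have h2 := hw1 j hj
    rw [add_comm, Nat.add_mul_mod_self_right, Nat.mod_eq_of_lt (by omega)]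
  have hallow : ∀ c i j, CIJ k c i j → alw M c i j (X c i j) = true := by
    rintro c i j ⟨h2, h4, hi, hj⟩
    obtain rfl | rfl | rfl : c = 2 ∨ c = 3 ∨ c = 4 := by omega
    · have e : X 2 i j = w i * NN M + w j := by simp [hX]
      rw [e]
      unfold alw
      rw [if_pos rfl, hdiv i hi j hj, hmod i hi j hj]
      have a1 := hw1 i hi
      have a2 := hw1 j hj
      have a3 := hlt i hi j hj
      by_cases hij : i = j
      · subst hij
        simp [a1, a3]
      · simp [a1, a2, a3, hij, hw2 i hi j hj hij]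
    · have e : X 3 i j = w i * NN M := by simp [hX]
      rw [e]
      unfold alw
      have a3 := hlt i hi i hi
      have a4 : w i * NN M < NN M * NN M := by omega
      simp [a4]
    · have e : X 4 i j = w j := by simp [hX]
      rw [e]
      unfold alw
      have a2 := hw1 j hj
      have : w j < NN M := by omega
      simp [this]
  have hle : ∀ c i j, CIJ k c i j → X c i j ≤ len M c := by
    intro c i j h
    exact (hL M c i j h.1 h.2.1).1 _ (hallow c i j h)
  have heq : ∀ i < k, ∀ j < k, X 3 i j + X 4 i j = X 2 i j ∧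
      X 2 ((i + 1) % k) ((j + 1) % k) = X 3 ((i + 1) % k) j + X 4 i ((j + 1) % k) := by
    intro i _ j _
    simp [hX]
  set F : Finset (Sym2 Lb) := (({2, 3, 4} : Finset ℕ) ×ˢ (Finset.range k ×ˢ Finset.range k)).image
    (fun t => ed M k t.1 t.2.1 t.2.2 (X t.1 t.2.1 t.2.2)) with hF
  have hmemF : ∀ c i j, CIJ k c i j → ed M k c i j (X c i j) ∈ (F : Set (Sym2 Lb)) := by
    rintro c i j ⟨h2, h4, hi, hj⟩
    rw [Finset.mem_coe, hF, Finset.mem_image]
    refine ⟨(c, i, j), ?_, rfl⟩
    simp only [Finset.mem_product, Finset.mem_insert, Finset.mem_singleton, Finset.mem_range]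
    exact ⟨by omega, hi, hj⟩
  refine ⟨F, ?_, ?_⟩
  · refine (Finset.card_image_le).trans ?_
    rw [Finset.card_product, Finset.card_product, Finset.card_range]
    have : ({2, 3, 4} : Finset ℕ).card = 3 := by decide
    rw [this]
  · intro v T hT
    by_cases hall : ∀ u ∈ T, u = v
    · have : T ⊆ {v} := fun u hu => Finset.mem_singleton.2 (hall u hu)
      have h1 := Finset.card_le_card this
      rw [Finset.card_singleton] at h1
      have : 1 ≤ hh M k := by unfold hh; omega
      omega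
    · push Not at hall
      obtain ⟨u₀, hu₀, hne⟩ := hall
      have hv : Vld M k v := by
        obtain ⟨y, hy⟩ := taskFwd_nb _ _ _ (hT u₀ hu₀) (Ne.symm hne)
        rw [SimpleGraph.deleteEdges_adj] at hy
        exact taskFwd_vld hP hA M k v y hy.1
      refine hS M k X hle heq (ow k X v) T fun u hu => ⟨?_, ?_⟩
      · by_cases huv : u = v
        · rw [huv]; exact hv
        · obtain ⟨y, hy⟩ := taskFwd_nb _ _ _ (hT u hu).symm huv
          rw [SimpleGraph.deleteEdges_adj] at hy
          exact taskFwd_vld hP hA M k u y hy.1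
      · exact (hO hP hL hA M k X (F : Set (Sym2 Lb)) hallow hmemF v u (hT u hu)).symm

end Pool.Agent.Q322.CD
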