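import Pool.Agent.Q322.CD.Stmts

/-! Two different centers cannot be connected. -/

set_option autoImplicit false

namespace Pool.Agent.Q322.CD

open Pool.Agent.NPC Pool.Agent.H633R2 Pool.Agent.Q322

/-- the leaves of a center -/
private def taskHeavy_lf (M : List (List Bool)) (k d i j : ℕ) : Finset Lb :=
  (Finset.range (bas M k d)).image (fun z => ((d, i, j, z + 1) : Lb))

private theorem taskHeavy_card (M : List (List Bool)) (k d i j : ℕ) :
    (taskHeavy_lf M k d i j).card = bas M k d := by
  unfold taskHeavy_lf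
  rw [Finset.card_image_of_injective, Finset.card_range]
  intro a b h
  simpa using h

private theorem taskHeavy_mem (M : List (List Bool)) (k d i j : ℕ) (x : Lb) :
    x ∈ taskHeavy_lf M k d i j ↔ ∃ z < bas M k d, x = (d, i, j, z + 1) := by
  unfold taskHeavy_lf
  simp only [Finset.mem_image, Finset.mem_range]
  constructor
  · rintro ⟨z, hz, rfl⟩; exact ⟨z, hz, rfl⟩
  · rintro ⟨z, hz, rfl⟩; exact ⟨z, hz, rfl⟩

/-- the edge from a leaf to its center -/
private def taskHeavy_f (x : Lb) : Sym2 Lb := s((x.1, x.2.1, x.2.2.1, 0), x)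

theorem taskHeavy : TaskHeavy := by
  classical
  intro hPrv hAdj M k F d i j d' i' j' hF hd hd' hi hj hi' hj' hne hcomp hreach
  set S : Finset Lb := taskHeavy_lf M k d i j ∪ taskHeavy_lf M k d' i' j' with hS
  have hdisj : Disjoint (taskHeavy_lf M k d i j) (taskHeavy_lf M k d' i' j') := by
    rw [Finset.disjoint_left]
    intro x hx hx'
    obtain ⟨z, _, rfl⟩ := (taskHeavy_mem _ _ _ _ _ _).1 hx
    obtain ⟨z', _, h⟩ := (taskHeavy_mem _ _ _ _ _ _).1 hx'
    simp only [Prod.mk.injEq] at h
    exact hne (by simp only [Prod.mk.injEq]; exact ⟨h.1, h.2.1, h.2.2.1⟩)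
  have hScard : S.card = bas M k d + bas M k d' := by
    rw [hS, Finset.card_union_of_disjoint hdisj, taskHeavy_card, taskHeavy_card]
  have hpos : ∀ x ∈ S, x.2.2.2 ≠ 0 := by
    intro x hx
    rcases Finset.mem_union.1 hx with h | h <;>
    · obtain ⟨z, _, rfl⟩ := (taskHeavy_mem _ _ _ _ _ _).1 h
      simp
  have hinj : Set.InjOn taskHeavy_f (S : Set Lb) := by
    intro x hx y hy hxy
    unfold taskHeavy_f at hxy
    rcases Sym2.eq_iff.1 hxy with h | h
    · exact h.2
    · have h1 := congrArg (fun p : Lb => p.2.2.2) h.1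
      exact absurd h1.symm (hpos y hy)
  have h1 : (S.filter (fun x => taskHeavy_f x ∈ F)).card ≤ F.card :=
    Finset.card_le_card_of_injOn taskHeavy_f (fun x hx => (Finset.mem_filter.1 hx).2)
      (hinj.mono (by intro x hx; exact (Finset.mem_filter.1 hx).1))
  have h2 : (S.filter (fun x => taskHeavy_f x ∈ F)).card +
      (S.filter (fun x => ¬ taskHeavy_f x ∈ F)).card = S.card :=
    Finset.card_filter_add_card_filter_not _
  set T0 := S.filter (fun x => ¬ taskHeavy_f x ∈ F) with hT0
  have hc2 : ((d', i', j', 0) : Lb) ∉ T0 := by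
    intro h
    exact hpos _ (Finset.mem_filter.1 h).1 rfl
  have hc1 : ((d, i, j, 0) : Lb) ∉ insert ((d', i', j', 0) : Lb) T0 := by
    intro h
    rcases Finset.mem_insert.1 h with h | h
    · simp only [Prod.mk.injEq] at h
      exact hne (by simp only [Prod.mk.injEq]; exact ⟨h.1, h.2.1, h.2.2.1⟩)
    · exact hpos _ (Finset.mem_filter.1 h).1 rfl
  have hleaf : ∀ (d i j : ℕ) (x : Lb), d ≤ 1 → i < k → j < k → x ∈ taskHeavy_lf M k d i j →
      ¬ taskHeavy_f x ∈ F →
      ((Gr M k).deleteEdges (F : Set (Sym2 Lb))).Reachable (d, i, j, 0) x := by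
    intro d i j x hd hi hj hx hxF
    obtain ⟨z, hz, rfl⟩ := (taskHeavy_mem _ _ _ _ _ _).1 hx
    refine SimpleGraph.Adj.reachable ?_
    rw [SimpleGraph.deleteEdges_adj]
    refine ⟨(hAdj hPrv M k _ _).2 (Or.inl ⟨d, i, j, z, hd, hi, hj, hz, rfl⟩), ?_⟩
    intro h
    exact hxF (by simpa [taskHeavy_f] using h)
  have h3 := hcomp (d, i, j, 0) (insert ((d, i, j, 0) : Lb) (insert ((d', i', j', 0) : Lb) T0)) (by
    intro w hw
    rcases Finset.mem_insert.1 hw with rfl | hw
    · exact SimpleGraph.Reachable.refl _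
    rcases Finset.mem_insert.1 hw with rfl | hw
    · exact hreach
    · obtain ⟨hwS, hwF⟩ := Finset.mem_filter.1 hw
      rcases Finset.mem_union.1 hwS with h | h
      · exact hleaf d i j w hd hi hj h hwF
      · exact hreach.trans (hleaf d' i' j' w hd' hi' hj' h hwF))
  rw [Finset.card_insert_of_notMem hc1, Finset.card_insert_of_notMem hc2] at h3
  unfold hh at h3
  unfold bas at hScard
  omega

end Pool.Agent.Q322.CD
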