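import Pool.Agent.Q322.CD.Stmts

set_option autoImplicit false

namespace Pool.Agent.Q322.CD

open Pool.Agent.NPC Pool.Agent.H633R2 Pool.Agent.Q322

namespace IneqPf

def seg (c i j lo hi : ℕ) : Finset Lb := (Finset.Icc lo hi).image fun z => ((c, i, j, z) : Lb)

theorem card_seg (c i j lo hi : ℕ) : (seg c i j lo hi).card = hi + 1 - lo := by
  unfold seg
  rw [Finset.card_image_of_injective, Nat.card_Icc]
  intro a b h
  simpa using h

theorem seg_disj {c c' i j i' j' lo hi lo' hi' : ℕ} (h : c ≠ c') :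
    Disjoint (seg c i j lo hi) (seg c' i' j' lo' hi') := by
  rw [Finset.disjoint_left]
  intro x hx hx'
  simp only [seg, Finset.mem_image] at hx hx'
  obtain ⟨z, _, rfl⟩ := hx
  obtain ⟨z', _, h'⟩ := hx'
  exact h (congrArg Prod.fst h').symm

theorem mem_seg {c i j lo hi : ℕ} {x : Lb} (h : x ∈ seg c i j lo hi) :
    ∃ z, lo ≤ z ∧ z ≤ hi ∧ x = (c, i, j, z) := by
  simp only [seg, Finset.mem_image, Finset.mem_Icc] at h
  obtain ⟨z, ⟨h1, h2⟩, h3⟩ := h
  exact ⟨z, h1, h2, h3.symm⟩

theorem card4 {A B C D : Finset Lb} (h1 : Disjoint A B) (h2 : Disjoint A C) (h3 : Disjoint A D)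
    (h4 : Disjoint B C) (h5 : Disjoint B D) (h6 : Disjoint C D) :
    (A ∪ B ∪ C ∪ D).card = A.card + B.card + C.card + D.card := by
  rw [Finset.card_union_of_disjoint, Finset.card_union_of_disjoint,
    Finset.card_union_of_disjoint h1]
  · exact Finset.disjoint_union_left.mpr ⟨h2, h4⟩
  · exact Finset.disjoint_union_left.mpr ⟨Finset.disjoint_union_left.mpr ⟨h3, h5⟩, h6⟩

section

variable (hprv : TaskPrv) (hlen : TaskLen) (hadj : TaskAdj) (hinj : TaskInj) (hreach : TaskReach)
  (M : List (List Bool)) (k : ℕ) (F : Finset (Sym2 Lb)) (X : ℕ → ℕ → ℕ → ℕ)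
  (hX : ∀ c i j, CIJ k c i j → alw M c i j (X c i j) = true)
  (hF : ∀ e ∈ F, ∃ c i j, CIJ k c i j ∧ e = ed M k c i j (X c i j))

include hlen hX in
theorem X_le {c i j : ℕ} (hc : CIJ k c i j) : X c i j ≤ len M c :=
  (hlen M c i j hc.1 hc.2.1).1 _ (hX c i j hc)

include hprv hlen hinj hX hF in
theorem not_mem {c i j : ℕ} (hc : CIJ k c i j) {y : ℕ} (hy : y ≤ len M c) (hne : y ≠ X c i j) :
    ed M k c i j y ∉ (F : Set (Sym2 Lb)) := by
  intro hmem
  obtain ⟨c', i', j', hc', he⟩ := hF _ hmem
  obtain ⟨h1, h2, h3, h4⟩ := (hinj hprv hlen M k c i j y c' i' j' (X c' i' j') hc hc' hy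
    (X_le hlen M k X hX hc')).1 he
  subst h1 h2 h3
  exact hne h4

include hprv hlen hadj hinj hreach hX hF in
theorem source_reach {c i j z : ℕ} (hc : CIJ k c i j) (h1 : 1 ≤ z) (h2 : z ≤ X c i j) :
    ((Gr M k).deleteEdges (F : Set (Sym2 Lb))).Reachable (src c i j) (c, i, j, z) := by
  have hXl := X_le hlen M k X hX hc
  have h := hreach hprv hlen hadj M k c i j (F : Set (Sym2 Lb)) 0 (X c i j) hc (by simp [hd])
    (by omega) (fun y _ hy => not_mem hprv hlen hinj M k F X hX hF hc (by omega) (by omega)) z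
    (Nat.zero_le _) h2
  have e1 : vx M k c i j 0 = src c i j := by simp [vx]
  have e2 : vx M k c i j z = (c, i, j, z) := by
    unfold vx
    rw [if_neg (by omega), if_neg (by omega)]
  rwa [e1, e2] at h

include hprv hlen hadj hinj hreach hX hF in
theorem target_reach {c i j z : ℕ} (hc : CIJ k c i j) (h1 : X c i j + 1 ≤ z)
    (h2 : z ≤ len M c) :
    ((Gr M k).deleteEdges (F : Set (Sym2 Lb))).Reachable (tgt k c i j) (c, i, j, z) := by
  have hXl := X_le hlen M k X hX hc
  have hhd : hd M c i j (X c i j + 1) = true := by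
    simp [hd, hX c i j hc]
  have h := fun z => hreach hprv hlen hadj M k c i j (F : Set (Sym2 Lb)) (X c i j + 1)
    (len M c + 1) hc hhd le_rfl
    (fun y hy1 hy2 => not_mem hprv hlen hinj M k F X hX hF hc (by omega) (by omega)) z
  have ha := h z h1 (by omega)
  have hb := h (len M c + 1) (by omega) le_rfl
  have e1 : vx M k c i j (len M c + 1) = tgt k c i j := by
    unfold vx
    rw [if_neg (by omega), if_pos rfl]
  have e2 : vx M k c i j z = (c, i, j, z) := by
    unfold vx
    rw [if_neg (by omega), if_neg (by omega)]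
  rw [e1] at hb
  rw [e2] at ha
  exact hb.symm.trans ha

include hprv hlen hadj hinj hX hF in
theorem leaf_reach {d i j z : ℕ} (hd1 : d ≤ 1) (hi : i < k) (hj : j < k) (hz : z ≤ bas M k d) :
    ((Gr M k).deleteEdges (F : Set (Sym2 Lb))).Reachable (d, i, j, 0) (d, i, j, z) := by
  rcases z with _ | z
  · exact SimpleGraph.Reachable.refl _
  · apply SimpleGraph.Adj.reachable
    rw [SimpleGraph.deleteEdges_adj]
    refine ⟨(hadj hprv M k _ _).mpr (Or.inl ⟨d, i, j, z, hd1, hi, hj, by omega, rfl⟩), ?_⟩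
    intro hmem
    obtain ⟨c', i', j', hc', he⟩ := hF _ hmem
    have hl := X_le hlen M k X hX hc'
    exact (hinj hprv hlen M k c' i' j' (X c' i' j') c' i' j' (X c' i' j') hc' hc' hl hl).2
      d i j z hd1 he.symm

end

end IneqPf

open IneqPf in
theorem taskIneq : TaskIneq := by
  intro hprv hlen hadj hinj hreach M k F X hX hF hsize i hi j hj
  have hN : 2 ≤ NN M := by unfold NN; omega
  have hk : 0 < k := by omega
  have hl2 : len M 2 = NN M * NN M := by simp [len]
  have hl3 : len M 3 = (NN M - 1) * NN M := by simp [len]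
  have hl4 : len M 4 = NN M - 1 := by simp [len]
  have hl3' : len M 3 + NN M = NN M * NN M := by
    rw [hl3]
    obtain ⟨n, hn⟩ : ∃ n, NN M = n + 1 := ⟨NN M - 1, by omega⟩
    rw [hn, Nat.add_sub_cancel]
    ring
  constructor
  · have c2 : CIJ k 2 i j := ⟨by omega, by omega, hi, hj⟩
    have c3 : CIJ k 3 i j := ⟨by omega, by omega, hi, hj⟩
    have c4 : CIJ k 4 i j := ⟨by omega, by omega, hi, hj⟩
    have x2 := X_le hlen M k X hX c2
    have h := hsize (1, i, j, 0) (seg 1 i j 0 (bas M k 1) ∪ seg 2 i j (X 2 i j + 1) (len M 2) ∪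
      seg 3 i j 1 (X 3 i j) ∪ seg 4 i j 1 (X 4 i j)) (by
        intro w hw
        rw [Finset.mem_union, Finset.mem_union, Finset.mem_union] at hw
        rcases hw with ((hw | hw) | hw) | hw
        · obtain ⟨z, h1, h2, rfl⟩ := mem_seg hw
          exact leaf_reach hprv hlen hadj hinj M k F X hX hF le_rfl hi hj h2
        · obtain ⟨z, h1, h2, rfl⟩ := mem_seg hw
          exact target_reach hprv hlen hadj hinj hreach M k F X hX hF c2 h1 h2
        · obtain ⟨z, h1, h2, rfl⟩ := mem_seg hw
          exact source_reach hprv hlen hadj hinj hreach M k F X hX hF c3 h1 h2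
        · obtain ⟨z, h1, h2, rfl⟩ := mem_seg hw
          exact source_reach hprv hlen hadj hinj hreach M k F X hX hF c4 h1 h2)
    rw [card4 (seg_disj (by omega)) (seg_disj (by omega)) (seg_disj (by omega))
      (seg_disj (by omega)) (seg_disj (by omega)) (seg_disj (by omega)),
      card_seg, card_seg, card_seg, card_seg, hl2] at h
    have hb : bas M k 1 = NN M * NN M + 3 * (k * k) := by simp [bas]
    have hh' : hh M k = 1 + 2 * (NN M * NN M) + 3 * (k * k) := rfl
    rw [hb, hh'] at h
    rw [hl2] at x2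
    omega
  · set i' := (i + 1) % k with hi'
    set j' := (j + 1) % k with hj'
    have hi'k : i' < k := Nat.mod_lt _ hk
    have hj'k : j' < k := Nat.mod_lt _ hk
    have c2 : CIJ k 2 i' j' := ⟨by omega, by omega, hi'k, hj'k⟩
    have c3 : CIJ k 3 i' j := ⟨by omega, by omega, hi'k, hj⟩
    have c4 : CIJ k 4 i j' := ⟨by omega, by omega, hi, hj'k⟩
    have x3 := X_le hlen M k X hX c3
    have x4 := X_le hlen M k X hX c4
    have h := hsize (0, i', j', 0) (seg 0 i' j' 0 (bas M k 0) ∪ seg 2 i' j' 1 (X 2 i' j') ∪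
      seg 3 i' j (X 3 i' j + 1) (len M 3) ∪ seg 4 i j' (X 4 i j' + 1) (len M 4)) (by
        intro w hw
        rw [Finset.mem_union, Finset.mem_union, Finset.mem_union] at hw
        rcases hw with ((hw | hw) | hw) | hw
        · obtain ⟨z, h1, h2, rfl⟩ := mem_seg hw
          exact leaf_reach hprv hlen hadj hinj M k F X hX hF (by omega) hi'k hj'k h2
        · obtain ⟨z, h1, h2, rfl⟩ := mem_seg hw
          exact source_reach hprv hlen hadj hinj hreach M k F X hX hF c2 h1 h2
        · obtain ⟨z, h1, h2, rfl⟩ := mem_seg hw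
          exact target_reach hprv hlen hadj hinj hreach M k F X hX hF c3 h1 h2
        · obtain ⟨z, h1, h2, rfl⟩ := mem_seg hw
          exact target_reach hprv hlen hadj hinj hreach M k F X hX hF c4 h1 h2)
    rw [card4 (seg_disj (by omega)) (seg_disj (by omega)) (seg_disj (by omega))
      (seg_disj (by omega)) (seg_disj (by omega)) (seg_disj (by omega)),
      card_seg, card_seg, card_seg, card_seg] at h
    have hb : bas M k 0 = NN M * NN M + 3 * (k * k) + 1 := by simp [bas]
    have hh' : hh M k = 1 + 2 * (NN M * NN M) + 3 * (k * k) := rfl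
    rw [hb, hh'] at h
    omega

theorem TaskIneq.main : Pool.Agent.Q322.CD.TaskIneq := taskIneq

end Pool.Agent.Q322.CD
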