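import Pool.Agent.Q322.CD.Stmts

namespace Pool.Agent.Q322.CD.TaskLen

open Pool.Agent.NPC Pool.Agent.H633R2 Pool.Agent.Q322

theorem main : Pool.Agent.Q322.CD.TaskLen := by
  intro M c i j h2 h4
  have hN : 2 ≤ NN M := by unfold NN; omega
  obtain ⟨m, hm⟩ : ∃ m, NN M = m + 2 := ⟨NN M - 2, by omega⟩
  have hc : c = 2 ∨ c = 3 ∨ c = 4 := by omega
  rcases hc with rfl | rfl | rfl
  · refine ⟨?_, ?_, ?_⟩
    · intro a ha
      unfold alw at ha
      simp only [if_true, Bool.or_eq_true, Bool.and_eq_true, decide_eq_true_eq] at ha
      unfold len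
      simp only [if_true]
      rcases ha with ha | ha
      · exact ha.le
      · exact ha.1.le
    · unfold alw len
      simp
    · unfold len
      simp only [if_true]
      positivity
  · refine ⟨?_, ?_, ?_⟩
    · intro a ha
      unfold alw at ha
      norm_num at ha
      unfold len
      norm_num
      obtain ⟨h1, h3⟩ := ha
      obtain ⟨d, rfl⟩ := Nat.dvd_of_mod_eq_zero h3
      rw [hm] at h1 ⊢
      have h5 : d < m + 2 := Nat.lt_of_mul_lt_mul_left h1
      have h6 : d ≤ m + 2 - 1 := by omega
      calc (m + 2) * d ≤ (m + 2) * (m + 2 - 1) := Nat.mul_le_mul_left _ h6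
        _ = _ := Nat.mul_comm _ _
    · unfold alw len
      norm_num
      rw [hm]
      first
        | omega
        | (show (m + 1) * (m + 2) < (m + 2) * (m + 2); nlinarith)
    · have h5 : len M 3 = (NN M - 1) * NN M := rfl
      rw [h5]
      exact Nat.mul_pos (by omega) (by omega)
  · refine ⟨?_, ?_, ?_⟩
    · intro a ha
      unfold alw at ha
      norm_num at ha
      unfold len
      norm_num
      omega
    · unfold alw len
      norm_num
      omega
    · unfold len
      norm_num
      omega

end Pool.Agent.Q322.CD.TaskLen
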