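import Pool.Agent.Q322.CD.Stmts

namespace Pool.Agent.Q322.CD

open Pool.Agent.NPC Pool.Agent.H633R2 Pool.Agent.Q322

namespace OwnerAux

lemma ow_src (k : ℕ) (X : ℕ → ℕ → ℕ → ℕ) (c i j : ℕ) : ow k X (src c i j) = src c i j := by
  unfold ow src
  split_ifs <;> simp_all

lemma ow_tgt (k : ℕ) (X : ℕ → ℕ → ℕ → ℕ) (c i j : ℕ) : ow k X (tgt k c i j) = tgt k c i j := by
  unfold tgt
  split_ifs <;> simp [ow]

lemma ow_vx (M : List (List Bool)) (k : ℕ) (X : ℕ → ℕ → ℕ → ℕ) (c i j q : ℕ) (hc : 2 ≤ c)
    (hX : X c i j ≤ len M c) (hq : q ≤ len M c + 1) :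
    ow k X (vx M k c i j q) = if q ≤ X c i j then src c i j else tgt k c i j := by
  unfold vx
  by_cases h0 : q = 0
  · subst h0
    simp [ow_src]
  · rw [if_neg h0]
    by_cases h1 : q = len M c + 1
    · rw [if_pos h1, ow_tgt, if_neg (by omega)]
    · rw [if_neg h1]
      have : ¬ c ≤ 1 := by omega
      simp [ow, this]

end OwnerAux

open OwnerAux in
theorem taskOwner : TaskOwner := by
  intro hPrv hLen hAdj M k X F hX hF x y hxy
  have step : ∀ x y : Lb, ((Gr M k).deleteEdges F).Adj x y → ow k X x = ow k X y := by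
    intro x y h
    rw [SimpleGraph.deleteEdges_adj] at h
    obtain ⟨h1, h2⟩ := h
    rcases (hAdj hPrv M k x y).1 h1 with ⟨d, i, j, z, hd, hi, hj, hz, he⟩ | ⟨c, i, j, z, hc, hz, he⟩
    · rw [Sym2.eq_iff] at he
      rcases he with ⟨rfl, rfl⟩ | ⟨rfl, rfl⟩ <;> simp [ow, hd]
    · have hXl : X c i j ≤ len M c := (hLen M c i j hc.1 hc.2.1).1 _ (hX c i j hc)
      have hne : z ≠ X c i j := by
        rintro rfl
        exact h2 (he ▸ hF c i j hc)
      obtain ⟨hp1, hp2, hp3⟩ := hPrv M c i j z (by omega)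
      have hA := ow_vx M k X c i j (prv M c i j (z + 1)) hc.1 hXl (by omega)
      have hB := ow_vx M k X c i j (z + 1) hc.1 hXl (by omega)
      have key : prv M c i j (z + 1) ≤ X c i j ↔ z + 1 ≤ X c i j := by
        constructor
        · intro h
          by_contra hcon
          have h3 : X c i j + 1 ≤ z := by omega
          have h4 : hd M c i j (X c i j + 1) = true := by
            unfold hd
            simp [hX c i j hc]
          have h5 := hp3 _ h3 h4
          omega
        · intro h
          omega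
      have hAB : ow k X (vx M k c i j (prv M c i j (z + 1))) = ow k X (vx M k c i j (z + 1)) := by
        rw [hA, hB]
        simp only [key]
      unfold ed at he
      rw [Sym2.eq_iff] at he
      rcases he with ⟨rfl, rfl⟩ | ⟨rfl, rfl⟩
      · exact hAB
      · exact hAB.symm
  obtain ⟨p⟩ := hxy
  induction p with
  | nil => rfl
  | cons h _ ih => exact (step _ _ h).trans ih

end Pool.Agent.Q322.CD
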