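import Pool.Agent.Q322.CD.Stmts

/-!
# MP_613513_lc, task `TaskPigeon`
-/

namespace Pool.Agent.Q322.CD

theorem taskPigeon : TaskPigeon := by
  intro hPrv hLen hInj M k F hF hex
  classical
  have hch : ∀ c i j, ∃ y, CIJ k c i j →
      y ≤ len M c ∧ alw M c i j y = true ∧ ed M k c i j y ∈ F := by
    intro c i j
    by_cases h : CIJ k c i j
    · obtain ⟨y, h1, h2, h3⟩ := hex c i j h
      exact ⟨y, fun _ => ⟨h1, h2, h3⟩⟩
    · exact ⟨0, fun h' => absurd h' h⟩
  choose X hX using hch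
  refine ⟨X, fun c i j h => (hX c i j h).2.1, ?_⟩
  obtain ⟨I, hIdef⟩ : ∃ I : Finset (ℕ × ℕ × ℕ),
      I = ({2, 3, 4} : Finset ℕ) ×ˢ (Finset.range k ×ˢ Finset.range k) := ⟨_, rfl⟩
  have hI : ∀ p ∈ I, CIJ k p.1 p.2.1 p.2.2 := by
    intro p hp
    rw [hIdef] at hp
    simp only [Finset.mem_product, Finset.mem_range, Finset.mem_insert,
      Finset.mem_singleton] at hp
    unfold CIJ
    omega
  have hIcard : I.card = 3 * (k * k) := by
    rw [hIdef]
    simp
  have himg : I.image (fun p => ed M k p.1 p.2.1 p.2.2 (X p.1 p.2.1 p.2.2)) = F := by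
    apply Finset.eq_of_subset_of_card_le
    · intro e he
      obtain ⟨p, hp, rfl⟩ := Finset.mem_image.1 he
      exact (hX _ _ _ (hI p hp)).2.2
    · rw [Finset.card_image_of_injOn, hIcard]
      · exact hF
      · intro p hp q hq hpq
        have h := (hInj hPrv hLen M k _ _ _ _ _ _ _ _ (hI p hp) (hI q hq)
          (hX _ _ _ (hI p hp)).1 (hX _ _ _ (hI q hq)).1).1 hpq
        exact Prod.ext h.1 (Prod.ext h.2.1 h.2.2.1)
  intro e he
  rw [← himg] at he
  obtain ⟨p, hp, rfl⟩ := Finset.mem_image.1 he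
  exact ⟨_, _, _, hI p hp, rfl⟩

end Pool.Agent.Q322.CD
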