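import Pool.Agent.Q322.CD.Stmts

/-!
# The reduction runs in polynomial time
-/

namespace Pool.Agent.Q322.CD

open Pool.Agent.NPC Pool.Agent.H633R2 Pool.Agent.Q322

section

variable {α : Type} [TEnc α] {M : α → List (List Bool)} {k : α → ℕ}

theorem taskPoly_NN (hM : Poly M) : UPoly (fun a => NN (M a)) := by
  unfold NN
  exact (UPoly.length hM).add (UPoly.const 2)

theorem taskPoly_NNp (hM : Poly M) : Poly (fun a => NN (M a)) := (taskPoly_NN hM).toPoly

theorem taskPoly_alw {c i j z : α → ℕ} (hM : Poly M) (hc : Poly c) (hi : Poly i) (hj : Poly j)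
    (hz : Poly z) : Poly (fun a => alw (M a) (c a) (i a) (j a) (z a)) := by
  have hN := taskPoly_NNp hM
  unfold alw
  fun_prop

theorem taskPoly_lenp {c : α → ℕ} (hM : Poly M) (hc : Poly c) :
    Poly (fun a => len (M a) (c a)) := by
  have hN := taskPoly_NNp hM
  unfold len
  fun_prop

theorem taskPoly_len {c : α → ℕ} (hM : Poly M) (hc : Poly c) :
    UPoly (fun a => len (M a) (c a)) := by
  refine UPoly.of_le (taskPoly_lenp hM hc) ((taskPoly_NN hM).mul (taskPoly_NN hM)) fun a => ?_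
  unfold len
  have h1 : 1 ≤ NN (M a) := by unfold NN; omega
  split_ifs
  · exact le_rfl
  · exact Nat.mul_le_mul_right _ (Nat.sub_le _ _)
  · exact (Nat.sub_le _ _).trans (Nat.le_mul_of_pos_left _ h1)

theorem taskPoly_src {c i j : α → ℕ} (hc : Poly c) (hi : Poly i) (hj : Poly j) :
    Poly (fun a => src (c a) (i a) (j a)) := by
  unfold src
  fun_prop

theorem taskPoly_tgt {c i j : α → ℕ} (hk : Poly k) (hc : Poly c) (hi : Poly i) (hj : Poly j) :
    Poly (fun a => tgt (k a) (c a) (i a) (j a)) := by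
  unfold tgt
  fun_prop

theorem taskPoly_vx {c i j z : α → ℕ} (hM : Poly M) (hk : Poly k) (hc : Poly c) (hi : Poly i)
    (hj : Poly j) (hz : Poly z) : Poly (fun a => vx (M a) (k a) (c a) (i a) (j a) (z a)) := by
  have h1 := taskPoly_lenp hM hc
  have h2 := taskPoly_src hc hi hj
  have h3 := taskPoly_tgt hk hc hi hj
  unfold vx
  fun_prop

theorem taskPoly_hd {c i j z : α → ℕ} (hM : Poly M) (hc : Poly c) (hi : Poly i) (hj : Poly j)
    (hz : Poly z) : Poly (fun a => hd (M a) (c a) (i a) (j a) (z a)) := by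
  have h1 : Poly (fun a => z a - 1) := by fun_prop
  have h2 := taskPoly_alw hM hc hi hj h1
  unfold hd
  fun_prop

theorem taskPoly_headD {l : α → List ℕ} (hl : Poly l) : Poly (fun a => (l a).headD 0) :=
  (Poly.head?_getD hl 0).congr fun a => by cases l a <;> rfl

theorem taskPoly_prv {c i j z : α → ℕ} (hM : Poly M) (hc : Poly c) (hi : Poly i) (hj : Poly j)
    (hz : Poly z) : Poly (fun a => prv (M a) (c a) (i a) (j a) (z a)) := by
  unfold prv
  refine taskPoly_headD (NPC.Poly.reverse (NPC.Poly.filter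
    (p := fun a y => decide (y < z a) && hd (M a) (c a) (i a) (j a) y)
    ((taskPoly_len hM hc).add (UPoly.const 2)).range ?_))
  have f1 : Poly (fun x : α × ℕ => x.1) := NPC.Poly.fst NPC.Poly.id
  have f2 : Poly (fun x : α × ℕ => x.2) := NPC.Poly.snd NPC.Poly.id
  have h := taskPoly_hd (hM.comp f1) (hc.comp f1) (hi.comp f1) (hj.comp f1) f2
  have hz' := hz.comp f1
  exact NPC.Poly.and (NPC.Poly.decide_lt f2 hz') h

theorem taskPoly_basp {d : α → ℕ} (hM : Poly M) (hk : UPoly k) (hd : Poly d) :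
    UPoly (fun a => bas (M a) (k a) (d a)) := by
  have hN := taskPoly_NN hM
  have h1 := ((hN.mul hN).add ((UPoly.const 3).mul (hk.mul hk)))
  refine UPoly.of_le (n := fun a => NN (M a) * NN (M a) + 3 * (k a * k a) + 1) ?_
    (h1.add (UPoly.const 1)) fun a => ?_
  · have h2 := h1.toPoly
    unfold bas
    exact NPC.Poly.add h2 (NPC.Poly.sub (NPC.Poly.const 1) hd)
  · unfold bas
    omega

theorem taskPoly_hh (hM : Poly M) (hk : UPoly k) : UPoly (fun a => hh (M a) (k a)) := by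
  have hN := taskPoly_NN hM
  unfold hh
  exact ((UPoly.const 1).add ((UPoly.const 2).mul (hN.mul hN))).add
    ((UPoly.const 3).mul (hk.mul hk))

theorem taskPoly_E (hM : Poly M) (hk : UPoly k) : Poly (fun a => E (M a) (k a)) := by
  have hkp := hk.toPoly
  unfold E
  refine NPC.Poly.flatMap (F := fun a i => (List.range (k a)).flatMap fun j =>
    ([0, 1].flatMap fun d => (List.range (bas (M a) (k a) d)).map fun z =>
      ((d, i, j, 0), (d, i, j, z + 1))) ++
    ([2, 3, 4].flatMap fun c => (List.range (len (M a) c + 1)).map fun z =>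
      (vx (M a) (k a) c i j (prv (M a) c i j (z + 1)), vx (M a) (k a) c i j (z + 1)))) hk.range ?_
  have f1 : Poly (fun x : α × ℕ => x.1) := NPC.Poly.fst NPC.Poly.id
  have f2 : Poly (fun x : α × ℕ => x.2) := NPC.Poly.snd NPC.Poly.id
  refine NPC.Poly.flatMap (F := fun (p : α × ℕ) j =>
    ([0, 1].flatMap fun d => (List.range (bas (M p.1) (k p.1) d)).map fun z =>
      ((d, p.2, j, 0), (d, p.2, j, z + 1))) ++
    ([2, 3, 4].flatMap fun c => (List.range (len (M p.1) c + 1)).map fun z =>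
      (vx (M p.1) (k p.1) c p.2 j (prv (M p.1) c p.2 j (z + 1)),
        vx (M p.1) (k p.1) c p.2 j (z + 1)))) (hk.range.comp f1) ?_
  have g1 : Poly (fun x : (α × ℕ) × ℕ => x.1.1) := NPC.Poly.fst (NPC.Poly.fst NPC.Poly.id)
  have g2 : Poly (fun x : (α × ℕ) × ℕ => x.1.2) := NPC.Poly.snd (NPC.Poly.fst NPC.Poly.id)
  have g3 : Poly (fun x : (α × ℕ) × ℕ => x.2) := NPC.Poly.snd NPC.Poly.id
  refine NPC.Poly.append ?_ ?_
  · refine NPC.Poly.flatMap (F := fun (p : (α × ℕ) × ℕ) d =>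
      (List.range (bas (M p.1.1) (k p.1.1) d)).map fun z =>
        ((d, p.1.2, p.2, 0), (d, p.1.2, p.2, z + 1))) (NPC.Poly.const _) ?_
    have e1 : Poly (fun x : ((α × ℕ) × ℕ) × ℕ => x.1) := NPC.Poly.fst NPC.Poly.id
    have e2 : Poly (fun x : ((α × ℕ) × ℕ) × ℕ => x.2) := NPC.Poly.snd NPC.Poly.id
    have hb := taskPoly_basp (hM.comp (g1.comp e1)) (hk.comp (g1.comp e1)) e2
    refine NPC.Poly.map (F := fun (p : ((α × ℕ) × ℕ) × ℕ) z =>
      ((p.2, p.1.1.2, p.1.2, 0), (p.2, p.1.1.2, p.1.2, z + 1))) hb.range ?_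
    fun_prop
  · refine NPC.Poly.flatMap (F := fun (p : (α × ℕ) × ℕ) c =>
      (List.range (len (M p.1.1) c + 1)).map fun z =>
        (vx (M p.1.1) (k p.1.1) c p.1.2 p.2 (prv (M p.1.1) c p.1.2 p.2 (z + 1)),
          vx (M p.1.1) (k p.1.1) c p.1.2 p.2 (z + 1))) (NPC.Poly.const _) ?_
    have e1 : Poly (fun x : ((α × ℕ) × ℕ) × ℕ => x.1) := NPC.Poly.fst NPC.Poly.id
    have e2 : Poly (fun x : ((α × ℕ) × ℕ) × ℕ => x.2) := NPC.Poly.snd NPC.Poly.id
    have hl := (taskPoly_len (hM.comp (g1.comp e1)) e2).add (UPoly.const 1)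
    refine NPC.Poly.map (F := fun (p : ((α × ℕ) × ℕ) × ℕ) z =>
      (vx (M p.1.1.1) (k p.1.1.1) p.2 p.1.1.2 p.1.2 (prv (M p.1.1.1) p.2 p.1.1.2 p.1.2 (z + 1)),
        vx (M p.1.1.1) (k p.1.1.1) p.2 p.1.1.2 p.1.2 (z + 1))) hl.range ?_
    have q1 : Poly (fun x : (((α × ℕ) × ℕ) × ℕ) × ℕ => M x.1.1.1.1) := by fun_prop
    have q2 : Poly (fun x : (((α × ℕ) × ℕ) × ℕ) × ℕ => k x.1.1.1.1) := by fun_prop
    have q3 : Poly (fun x : (((α × ℕ) × ℕ) × ℕ) × ℕ => x.1.2) := by fun_prop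
    have q4 : Poly (fun x : (((α × ℕ) × ℕ) × ℕ) × ℕ => x.1.1.1.2) := by fun_prop
    have q5 : Poly (fun x : (((α × ℕ) × ℕ) × ℕ) × ℕ => x.1.1.2) := by fun_prop
    have q6 : Poly (fun x : (((α × ℕ) × ℕ) × ℕ) × ℕ => x.2 + 1) := by fun_prop
    exact NPC.Poly.pair (taskPoly_vx q1 q2 q3 q4 q5 (taskPoly_prv q1 q3 q4 q5 q6))
      (taskPoly_vx q1 q2 q3 q4 q5 q6)

theorem taskPoly_allLb {R : α → ℕ} (hR : UPoly R) : Poly (fun a => allLb (R a)) := by
  unfold allLb
  have h := hR.range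
  fun_prop

end

theorem taskPoly_kk : UPoly (fun x : List (List Bool) × ℕ => min x.2 (x.1.length + 1)) := by
  refine UPoly.of_le (n := fun x : List (List Bool) × ℕ => x.1.length + 1) (by fun_prop)
    ((UPoly.length (by fun_prop)).add (UPoly.const 1)) (fun x => min_le_right _ _)

theorem taskPoly : TaskPoly := by
  unfold TaskPoly
  have hk := taskPoly_kk
  have hM : Poly (fun x : List (List Bool) × ℕ => x.1) := by fun_prop
  have hhh := taskPoly_hh hM hk
  have h1 : Poly (fun x : List (List Bool) × ℕ =>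
      mat (allLb (hh x.1 (min x.2 (x.1.length + 1)) + min x.2 (x.1.length + 1) + 8))
        (adE (E x.1 (min x.2 (x.1.length + 1))))) := by
    refine mat_poly (taskPoly_allLb ((hhh.add hk).add (UPoly.const 8))) ?_
    have f1 : Poly (fun x : ((List (List Bool) × ℕ) × Lb) × Lb => x.1.1) := by fun_prop
    have f2 : Poly (fun x : ((List (List Bool) × ℕ) × Lb) × Lb => (x.1.2, x.2)) := by fun_prop
    have h3 := (taskPoly_E hM hk).comp f1
    refine (NPC.Poly.decide_mem f2 h3).congr fun x => ?_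
    unfold adE
    congr
  have h2 : Poly (fun x : List (List Bool) × ℕ =>
      max 1 (3 * (min x.2 (x.1.length + 1) * min x.2 (x.1.length + 1)))) := by
    have hkp := hk.toPoly
    exact NPC.Poly.max (NPC.Poly.const 1) (((UPoly.const 3).mul (hk.mul hk)).toPoly)
  exact NPC.Poly.pair h1 (NPC.Poly.pair h2 hhh.toPoly)

end Pool.Agent.Q322.CD
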