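import Pool.Agent.Q322.CD.Stmts

/-!
# The last head before a position
-/

namespace Pool.Agent.Q322.CD

open Pool.Agent.NPC Pool.Agent.H633R2 Pool.Agent.Q322

private theorem taskPrv_last (l : List ℕ) (hl : l.Pairwise (· < ·)) (hne : l ≠ []) :
    l.reverse.headD 0 ∈ l ∧ ∀ m ∈ l, m ≤ l.reverse.headD 0 := by
  have h1 : l.reverse.headD 0 ∈ l := by
    rw [← List.mem_reverse]
    cases h : l.reverse with
    | nil => exact absurd (List.reverse_eq_nil_iff.mp h) hne
    | cons a t => simp
  refine ⟨h1, fun m hm => ?_⟩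
  have h2 : l.reverse.Pairwise (fun a b => b < a) := List.pairwise_reverse.mpr hl
  rw [← List.mem_reverse] at hm
  cases h : l.reverse with
  | nil => rw [h] at hm; simp at hm
  | cons a t =>
    rw [h] at hm h2
    simp only [List.headD_cons]
    rcases List.mem_cons.mp hm with rfl | hm
    · exact le_rfl
    · exact (List.rel_of_pairwise_cons h2 hm).le

theorem taskPrv : TaskPrv := by
  intro M c i j z hz
  set l := (List.range (len M c + 2)).filter (fun y => decide (y < z + 1) && hd M c i j y) with hl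
  have hp : l.Pairwise (· < ·) := List.Pairwise.filter _ List.pairwise_lt_range
  have hmem : ∀ m, m ∈ l ↔ m < len M c + 2 ∧ m < z + 1 ∧ hd M c i j m = true := by
    intro m
    simp [hl, List.mem_filter]
  have h0 : 0 ∈ l := (hmem 0).mpr ⟨by omega, by omega, by simp [hd]⟩
  obtain ⟨h1, h2⟩ := taskPrv_last l hp (List.ne_nil_of_mem h0)
  have h3 := (hmem _).mp h1
  have e : prv M c i j (z + 1) = l.reverse.headD 0 := rfl
  rw [e]
  refine ⟨?_, h3.2.2, ?_⟩
  · have := h3.2.1
    omega
  · intro m hm hh
    exact h2 m ((hmem m).mpr ⟨by omega, by omega, hh⟩)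

end Pool.Agent.Q322.CD
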