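import Pool.Agent.Q322.CD.Stmts

namespace Pool.Agent.Q322.CD.TaskReach

open Pool.Agent.NPC Pool.Agent.H633R2 Pool.Agent.Q322

theorem main : Pool.Agent.Q322.CD.TaskReach := by
  intro hP _ hA M k c i j F m m' hC hm hm' hF z
  induction z using Nat.strong_induction_on with
  | _ z ih =>
    intro hmz hz
    rcases Nat.eq_or_lt_of_le hmz with h | h
    · rw [h]
    · obtain ⟨y, rfl⟩ : ∃ y, z = y + 1 := ⟨z - 1, by omega⟩
      obtain ⟨h1, _, h3⟩ := hP M c i j y (by omega)
      have h4 : m ≤ prv M c i j (y + 1) := h3 m (by omega) hm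
      have h5 := ih (prv M c i j (y + 1)) (by omega) h4 (by omega)
      refine h5.trans ?_
      refine SimpleGraph.Adj.reachable ?_
      rw [SimpleGraph.deleteEdges_adj]
      refine ⟨?_, ?_⟩
      · rw [hA hP]
        exact Or.inr ⟨c, i, j, y, hC, by omega, rfl⟩
      · exact hF y (by omega) (by omega)

end Pool.Agent.Q322.CD.TaskReach
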