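import Pool.Agent.Q322.CD.Stmts

namespace Pool.Agent.Q322.CD

theorem TaskReach.main : Pool.Agent.Q322.CD.TaskReach := by
  intro hP hL hA M k c i j F m m' hC hm hm' hF z
  induction z using Nat.strong_induction_on with
  | _ z ih =>
    intro h1 h2
    rcases Nat.eq_or_lt_of_le h1 with h | h
    · subst h; exact SimpleGraph.Reachable.refl _
    · obtain ⟨y, rfl⟩ : ∃ y, z = y + 1 := ⟨z - 1, by omega⟩
      obtain ⟨a1, a2, a3⟩ := hP M c i j y (by omega)
      have h3 : m ≤ prv M c i j (y + 1) := a3 m (by omega) hm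
      refine (ih _ (by omega) h3 (by omega)).trans (SimpleGraph.Adj.reachable ?_)
      rw [SimpleGraph.deleteEdges_adj]
      refine ⟨(hA hP M k _ _).2 (Or.inr ⟨c, i, j, y, hC, by omega, rfl⟩), ?_⟩
      exact hF y (by omega) (by omega)

end Pool.Agent.Q322.CD
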