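import Pool.Agent.Q322.CD.Stmts

namespace Pool.Agent.Q322.CD.TaskSize

open Pool.Agent.NPC Pool.Agent.H633R2 Pool.Agent.Q322 Pool.Agent.Q322.CD

/-- the predecessor modulo `k` -/
def pd (k i : ℕ) : ℕ := if i = 0 then k - 1 else i - 1

theorem pd_lt {k i : ℕ} (h : i < k) : pd k i < k := by
  unfold pd; split_ifs <;> omega

theorem pd_succ {k i : ℕ} (h : i < k) : (pd k i + 1) % k = i := by
  unfold pd
  split_ifs with h0
  · rw [Nat.sub_add_cancel (by omega), Nat.mod_self, h0]
  · rw [Nat.sub_add_cancel (by omega), Nat.mod_eq_of_lt h]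

theorem pd_uniq {k i a : ℕ} (ha : a < k) (h : (a + 1) % k = i) : a = pd k i := by
  unfold pd
  by_cases h1 : a + 1 = k
  · rw [h1, Nat.mod_self] at h
    rw [if_pos h.symm]; omega
  · rw [Nat.mod_eq_of_lt (by omega)] at h
    rw [if_neg (by omega)]; omega

theorem len_sum (M : List (List Bool)) : len M 3 + len M 4 + 1 = NN M * NN M := by
  have h : ∃ n, NN M = n + 1 := ⟨M.length + 1, rfl⟩
  obtain ⟨n, hn⟩ := h
  unfold len
  rw [hn]
  simp
  ring

theorem main : Pool.Agent.Q322.CD.TaskSize := by
  intro M k X hX hE o T hT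
  rcases T.eq_empty_or_nonempty with rfl | ⟨w0, hw0⟩
  · simp
  have ho : ∃ d i j, (d = 0 ∨ d = 1) ∧ i < k ∧ j < k ∧ o = ((d, i, j, 0) : Lb) := by
    obtain ⟨⟨h1, h2, h3⟩, h4⟩ := hT w0 hw0
    obtain ⟨c, i, j, z⟩ := w0
    simp only at h1 h2 h3
    have hk : 0 < k := by omega
    unfold ow at h4
    simp only at h4
    by_cases hc : c ≤ 1
    · rw [if_pos hc] at h4
      exact ⟨c, i, j, by omega, h1, h2, h4.symm⟩
    · rw [if_neg hc] at h4
      by_cases hz : z ≤ X c i j
      · rw [if_pos hz] at h4
        unfold src at h4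
        by_cases h5 : c = 2
        · rw [if_pos h5] at h4
          exact ⟨0, i, j, Or.inl rfl, h1, h2, h4.symm⟩
        · rw [if_neg h5] at h4
          exact ⟨1, i, j, Or.inr rfl, h1, h2, h4.symm⟩
      · rw [if_neg hz] at h4
        unfold tgt at h4
        by_cases h5 : c = 2
        · rw [if_pos h5] at h4
          exact ⟨1, i, j, Or.inr rfl, h1, h2, h4.symm⟩
        · rw [if_neg h5] at h4
          by_cases h6 : c = 3
          · rw [if_pos h6] at h4
            exact ⟨0, i, (j + 1) % k, Or.inl rfl, h1, Nat.mod_lt _ hk, h4.symm⟩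
          · rw [if_neg h6] at h4
            exact ⟨0, (i + 1) % k, j, Or.inl rfl, Nat.mod_lt _ hk, h2, h4.symm⟩
  obtain ⟨d, i, j, hd, hi, hj, rfl⟩ := ho
  have hlen := len_sum M
  have hlen2 : len M 2 = NN M * NN M := by unfold len; simp
  rcases hd with rfl | rfl
  · -- the class of `a_ij`
    have hsub : T ⊆ ((Finset.range (bas M k 0 + 1)).image (fun z => ((0, i, j, z) : Lb))) ∪
        ((Finset.Icc 1 (X 2 i j)).image (fun z => ((2, i, j, z) : Lb))) ∪
        ((Finset.Ioc (X 3 i (pd k j)) (len M 3)).image (fun z => ((3, i, pd k j, z) : Lb))) ∪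
        ((Finset.Ioc (X 4 (pd k i) j) (len M 4)).image (fun z => ((4, pd k i, j, z) : Lb))) := by
      intro w hw
      obtain ⟨⟨h1, h2, h3⟩, h4⟩ := hT w hw
      obtain ⟨c, a, b, z⟩ := w
      simp only at h1 h2 h3
      unfold ow at h4
      simp only at h4
      simp only [Finset.mem_union, Finset.mem_image, Finset.mem_range, Finset.mem_Icc,
        Finset.mem_Ioc]
      by_cases hc : c ≤ 1
      · rw [if_pos hc] at h4
        simp only [Prod.mk.injEq] at h4
        obtain ⟨rfl, rfl, rfl, -⟩ := h4
        left; left; left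
        exact ⟨z, by rcases h3 with h3 | h3 <;> omega, rfl⟩
      · rw [if_neg hc] at h4
        rcases h3 with h3 | ⟨h31, h32, h33, h34⟩
        · exact absurd h3.1 hc
        by_cases hz : z ≤ X c a b
        · rw [if_pos hz] at h4
          unfold src at h4
          by_cases h5 : c = 2
          · rw [if_pos h5] at h4
            simp only [Prod.mk.injEq] at h4
            obtain ⟨-, rfl, rfl, -⟩ := h4
            subst h5
            left; left; right
            exact ⟨z, ⟨h33, hz⟩, rfl⟩
          · rw [if_neg h5] at h4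
            simp at h4
        · rw [if_neg hz] at h4
          unfold tgt at h4
          by_cases h5 : c = 2
          · rw [if_pos h5] at h4
            simp at h4
          · rw [if_neg h5] at h4
            by_cases h6 : c = 3
            · rw [if_pos h6] at h4
              simp only [Prod.mk.injEq] at h4
              obtain ⟨-, rfl, h7, -⟩ := h4
              subst h6
              have h8 := pd_uniq h2 h7
              subst h8
              left; right
              exact ⟨z, ⟨by omega, h34⟩, rfl⟩
            · rw [if_neg h6] at h4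
              simp only [Prod.mk.injEq] at h4
              obtain ⟨-, h7, rfl, -⟩ := h4
              have h9 : c = 4 := by omega
              subst h9
              have h8 := pd_uniq h1 h7
              subst h8
              right
              exact ⟨z, ⟨by omega, h34⟩, rfl⟩
    have hcard := Finset.card_le_card hsub
    have c1 := Finset.card_union_le (((Finset.range (bas M k 0 + 1)).image (fun z => ((0, i, j, z) : Lb))) ∪
        ((Finset.Icc 1 (X 2 i j)).image (fun z => ((2, i, j, z) : Lb))) ∪
        ((Finset.Ioc (X 3 i (pd k j)) (len M 3)).image (fun z => ((3, i, pd k j, z) : Lb))))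
        ((Finset.Ioc (X 4 (pd k i) j) (len M 4)).image (fun z => ((4, pd k i, j, z) : Lb)))
    have c2 := Finset.card_union_le (((Finset.range (bas M k 0 + 1)).image (fun z => ((0, i, j, z) : Lb))) ∪
        ((Finset.Icc 1 (X 2 i j)).image (fun z => ((2, i, j, z) : Lb))))
        ((Finset.Ioc (X 3 i (pd k j)) (len M 3)).image (fun z => ((3, i, pd k j, z) : Lb)))
    have c3 := Finset.card_union_le ((Finset.range (bas M k 0 + 1)).image (fun z => ((0, i, j, z) : Lb)))
        ((Finset.Icc 1 (X 2 i j)).image (fun z => ((2, i, j, z) : Lb)))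
    have d1 := Finset.card_image_le (s := Finset.range (bas M k 0 + 1)) (f := fun z => ((0, i, j, z) : Lb))
    have d2 := Finset.card_image_le (s := Finset.Icc 1 (X 2 i j)) (f := fun z => ((2, i, j, z) : Lb))
    have d3 := Finset.card_image_le (s := Finset.Ioc (X 3 i (pd k j)) (len M 3))
      (f := fun z => ((3, i, pd k j, z) : Lb))
    have d4 := Finset.card_image_le (s := Finset.Ioc (X 4 (pd k i) j) (len M 4))
      (f := fun z => ((4, pd k i, j, z) : Lb))
    rw [Finset.card_range] at d1
    rw [Nat.card_Icc] at d2
    rw [Nat.card_Ioc] at d3 d4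
    have e1 := (hE (pd k i) (pd_lt hi) (pd k j) (pd_lt hj)).2
    rw [pd_succ hi, pd_succ hj] at e1
    have e2 := hX 3 i (pd k j) ⟨by norm_num, by norm_num, hi, pd_lt hj⟩
    have e3 := hX 4 (pd k i) j ⟨by norm_num, by norm_num, pd_lt hi, hj⟩
    have hb : bas M k 0 = NN M * NN M + 3 * (k * k) + 1 := by unfold bas; omega
    have hh' : hh M k = 1 + 2 * (NN M * NN M) + 3 * (k * k) := rfl
    omega
  · -- the class of `b_ij`
    have hsub : T ⊆ ((Finset.range (bas M k 1 + 1)).image (fun z => ((1, i, j, z) : Lb))) ∪
        ((Finset.Ioc (X 2 i j) (len M 2)).image (fun z => ((2, i, j, z) : Lb))) ∪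
        ((Finset.Icc 1 (X 3 i j)).image (fun z => ((3, i, j, z) : Lb))) ∪
        ((Finset.Icc 1 (X 4 i j)).image (fun z => ((4, i, j, z) : Lb))) := by
      intro w hw
      obtain ⟨⟨h1, h2, h3⟩, h4⟩ := hT w hw
      obtain ⟨c, a, b, z⟩ := w
      simp only at h1 h2 h3
      unfold ow at h4
      simp only at h4
      simp only [Finset.mem_union, Finset.mem_image, Finset.mem_range, Finset.mem_Icc,
        Finset.mem_Ioc]
      by_cases hc : c ≤ 1
      · rw [if_pos hc] at h4
        simp only [Prod.mk.injEq] at h4
        obtain ⟨rfl, rfl, rfl, -⟩ := h4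
        left; left; left
        exact ⟨z, by rcases h3 with h3 | h3 <;> omega, rfl⟩
      · rw [if_neg hc] at h4
        rcases h3 with h3 | ⟨h31, h32, h33, h34⟩
        · exact absurd h3.1 hc
        by_cases hz : z ≤ X c a b
        · rw [if_pos hz] at h4
          unfold src at h4
          by_cases h5 : c = 2
          · rw [if_pos h5] at h4
            simp at h4
          · rw [if_neg h5] at h4
            simp only [Prod.mk.injEq] at h4
            obtain ⟨-, rfl, rfl, -⟩ := h4
            by_cases h6 : c = 3
            · subst h6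
              left; right
              exact ⟨z, ⟨h33, hz⟩, rfl⟩
            · have h9 : c = 4 := by omega
              subst h9
              right
              exact ⟨z, ⟨h33, hz⟩, rfl⟩
        · rw [if_neg hz] at h4
          unfold tgt at h4
          by_cases h5 : c = 2
          · rw [if_pos h5] at h4
            simp only [Prod.mk.injEq] at h4
            obtain ⟨-, rfl, rfl, -⟩ := h4
            subst h5
            left; left; right
            exact ⟨z, ⟨by omega, h34⟩, rfl⟩
          · rw [if_neg h5] at h4
            by_cases h6 : c = 3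
            · rw [if_pos h6] at h4
              simp at h4
            · rw [if_neg h6] at h4
              simp at h4
    have hcard := Finset.card_le_card hsub
    have c1 := Finset.card_union_le (((Finset.range (bas M k 1 + 1)).image (fun z => ((1, i, j, z) : Lb))) ∪
        ((Finset.Ioc (X 2 i j) (len M 2)).image (fun z => ((2, i, j, z) : Lb))) ∪
        ((Finset.Icc 1 (X 3 i j)).image (fun z => ((3, i, j, z) : Lb))))
        ((Finset.Icc 1 (X 4 i j)).image (fun z => ((4, i, j, z) : Lb)))
    have c2 := Finset.card_union_le (((Finset.range (bas M k 1 + 1)).image (fun z => ((1, i, j, z) : Lb))) ∪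
        ((Finset.Ioc (X 2 i j) (len M 2)).image (fun z => ((2, i, j, z) : Lb))))
        ((Finset.Icc 1 (X 3 i j)).image (fun z => ((3, i, j, z) : Lb)))
    have c3 := Finset.card_union_le ((Finset.range (bas M k 1 + 1)).image (fun z => ((1, i, j, z) : Lb)))
        ((Finset.Ioc (X 2 i j) (len M 2)).image (fun z => ((2, i, j, z) : Lb)))
    have d1 := Finset.card_image_le (s := Finset.range (bas M k 1 + 1)) (f := fun z => ((1, i, j, z) : Lb))
    have d2 := Finset.card_image_le (s := Finset.Ioc (X 2 i j) (len M 2)) (f := fun z => ((2, i, j, z) : Lb))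
    have d3 := Finset.card_image_le (s := Finset.Icc 1 (X 3 i j)) (f := fun z => ((3, i, j, z) : Lb))
    have d4 := Finset.card_image_le (s := Finset.Icc 1 (X 4 i j)) (f := fun z => ((4, i, j, z) : Lb))
    rw [Finset.card_range] at d1
    rw [Nat.card_Icc] at d3 d4
    rw [Nat.card_Ioc] at d2
    have e1 := (hE i hi j hj).1
    have e2 := hX 2 i j ⟨by norm_num, by norm_num, hi, hj⟩
    have hb : bas M k 1 = NN M * NN M + 3 * (k * k) := by unfold bas; omega
    have hh' : hh M k = 1 + 2 * (NN M * NN M) + 3 * (k * k) := rfl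
    omega

end Pool.Agent.Q322.CD.TaskSize
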