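import Pool.Agent.Q322.CD.Stmts

namespace Pool.Agent.Q322.CD

open Pool.Agent.NPC Pool.Agent.H633R2 Pool.Agent.Q322

theorem taskTransfer : TaskTransfer := by
  classical
  intro Λ vs ad H K h hnd hK hh hadj hmem
  have hl := lab_injective hnd ad
  have hG : ∀ i j, (graphOf (mat vs ad)).Adj i j ↔ H.Adj (lab vs ad i) (lab vs ad j) := by
    intro i j
    rw [adj_mat, hadj]
    constructor
    · rintro ⟨h1, h2⟩
      exact ⟨fun h => h1 (hl h), h2⟩
    · rintro ⟨h1, h2⟩
      exact ⟨fun h => h1 (congrArg _ h), h2⟩
  constructor
  · rintro ⟨_, _, F, hF1, hF2, hF3⟩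
    dsimp only at F hF1 hF2 hF3
    refine ⟨F.image (Sym2.map (lab vs ad)), Finset.card_image_le.trans hF2, ?_⟩
    intro v T hT
    by_cases hv : v ∈ vs
    · obtain ⟨i, rfl⟩ := exists_lab ad hv
      have key : ∀ w, (H.deleteEdges ((F.image (Sym2.map (lab vs ad)) : Finset (Sym2 Λ)) :
          Set (Sym2 Λ))).Reachable (lab vs ad i) w → ∃ j, lab vs ad j = w ∧
            ((graphOf (mat vs ad)).deleteEdges (F : Set (Sym2 (Fin (mat vs ad).length)))).Reachable
              i j := by
        intro w hw
        rw [SimpleGraph.reachable_iff_reflTransGen] at hw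
        induction hw with
        | refl => exact ⟨i, rfl, SimpleGraph.Reachable.refl _⟩
        | @tail b c _ hstep ih =>
          obtain ⟨j, hj1, hj⟩ := ih
          rw [SimpleGraph.deleteEdges_adj] at hstep
          obtain ⟨hs1, hs2⟩ := hstep
          obtain ⟨j', hj'⟩ := exists_lab ad (hmem c b hs1.symm)
          subst hj1
          subst hj'
          refine ⟨j', rfl, hj.trans (SimpleGraph.Adj.reachable ?_)⟩
          rw [SimpleGraph.deleteEdges_adj]
          refine ⟨(hG j j').2 hs1, fun hc => hs2 ?_⟩
          rw [Finset.coe_image]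
          exact ⟨s(j, j'), hc, by simp⟩
      set c := ((graphOf (mat vs ad)).deleteEdges
        (F : Set (Sym2 (Fin (mat vs ad).length)))).connectedComponentMk i with hc
      have h1 := hF3 c
      have h2 : (T : Set Λ) ⊆ (lab vs ad) '' c.supp := by
        intro w hw
        obtain ⟨j, hj1, hj2⟩ := key w (hT w hw)
        refine ⟨j, ?_, hj1⟩
        rw [SimpleGraph.ConnectedComponent.mem_supp_iff, hc, SimpleGraph.ConnectedComponent.eq]
        exact hj2.symm
      calc T.card = (T : Set Λ).ncard := (Set.ncard_coe_finset T).symm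
        _ ≤ ((lab vs ad) '' c.supp).ncard := Set.ncard_le_ncard h2 (Set.toFinite _)
        _ = c.supp.ncard := Set.ncard_image_of_injective _ hl
        _ ≤ h := h1
    · have h2 : T ⊆ {v} := by
        intro w hw
        rw [Finset.mem_singleton]
        by_contra hne
        have h3 := hT w hw
        rw [SimpleGraph.reachable_iff_reflTransGen] at h3
        rcases Relation.ReflTransGen.cases_head h3 with h4 | ⟨c, h4, _⟩
        · exact hne h4.symm
        · rw [SimpleGraph.deleteEdges_adj] at h4
          exact hv (hmem v c h4.1)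
      exact (Finset.card_le_card h2).trans (by rw [Finset.card_singleton]; omega)
  · rintro ⟨F', hF1, hF2⟩
    refine ⟨hK, hh, ?_⟩
    dsimp only
    set F : Finset (Sym2 (Fin (mat vs ad).length)) := Finset.univ.filter
      (fun e => e ∈ (graphOf (mat vs ad)).edgeSet ∧ Sym2.map (lab vs ad) e ∈ F') with hF
    refine ⟨F, ?_, ?_, ?_⟩
    · intro e he
      have := (Finset.mem_filter.1 (Finset.mem_coe.1 he)).2
      exact this.1
    · refine le_trans ?_ hF1
      refine Finset.card_le_card_of_injOn (Sym2.map (lab vs ad)) ?_ ?_
      · intro e he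
        have := (Finset.mem_filter.1 (Finset.mem_coe.1 he)).2
        exact this.2
      · exact (Sym2.map.injective hl).injOn
    · intro c
      induction c using SimpleGraph.ConnectedComponent.ind with
      | _ i =>
      set c := ((graphOf (mat vs ad)).deleteEdges
        (F : Set (Sym2 (Fin (mat vs ad).length)))).connectedComponentMk i with hc
      let f : ((graphOf (mat vs ad)).deleteEdges (F : Set (Sym2 (Fin (mat vs ad).length)))) →g
          (H.deleteEdges (F' : Set (Sym2 Λ))) := ⟨lab vs ad, by
            intro a b hab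
            rw [SimpleGraph.deleteEdges_adj] at hab ⊢
            refine ⟨(hG a b).1 hab.1, fun h1 => hab.2 ?_⟩
            rw [hF]
            rw [Finset.mem_coe, Finset.mem_filter]
            exact ⟨Finset.mem_univ _, hab.1, by simpa using h1⟩⟩
      have h2 := hF2 (lab vs ad i) (c.supp.toFinite.toFinset.image (lab vs ad)) (by
        intro w hw
        rw [Finset.mem_image] at hw
        obtain ⟨j, hj, rfl⟩ := hw
        rw [Set.Finite.mem_toFinset, SimpleGraph.ConnectedComponent.mem_supp_iff, hc,
          SimpleGraph.ConnectedComponent.eq] at hj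
        exact (hj.symm).map f)
      rw [Finset.card_image_of_injective _ hl] at h2
      rw [Set.ncard_eq_toFinset_card c.supp c.supp.toFinite]
      exact h2

end Pool.Agent.Q322.CD
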